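import Pool.Agent.Mg.F45960e.Gfad5e2

/-!
The group of a bilinear recursion without nilpotency: rigidity and the strategy of Duplicator.
-/

namespace Pool.Agent.MP_45960e_lc.PR

open Module Grp Function

set_option synthInstance.maxHeartbeats 40000
set_option maxHeartbeats 800000
set_option linter.unusedSectionVars false

variable {A B S : Type} [AddCommGroup A] [Module F A] [AddCommGroup B] [Module F B] [Fintype S]

variable (A B S) in
/-- The data of a recursion. -/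
structure Ch where
  N : S → A →ₗ[F] A
  M : S → B →ₗ[F] B
  T : Submodule F A
  C : ZZ A B S →ₗ[F] ZZ A B S
  hC : C (1, 0, 0) = (0, 1, 0)
  gen : ∀ p : ZZ A B S → Prop, p (1, 0, 0) → (∀ a b, p a → p b → p (a + b)) →
    (∀ a, p a → p (C a)) → ∀ z, p z
  b0 : B
  hb0 : b0 ≠ 0

namespace Ch
variable (c : Ch A B S)

/-- Every family of subspaces closed under the local rules is everything on a spanning set. -/
def Cl (O : Set A) : Prop :=
  ∃ SB : Set B, Submodule.span F SB = ⊤ ∧ ∀ D : B → Submodule F A, (∀ b, c.T ≤ D b) →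
    (∀ a ∈ O, ∀ b, (∀ σ, c.N σ a ∈ D (c.M σ b)) → a ∈ D b) →
    (∀ a ∈ O, a ∈ c.T → ∀ b σ0, (∀ σ, σ ≠ σ0 → c.N σ a = 0) → c.N σ0 a ∈ D (c.M σ0 b)) →
    ∀ b ∈ SB, ∀ a, a ∈ D b

def col (δ : A →ₗ[F] B →ₗ[F] F) (v : VV A B S) (w : WW B c.T) : Option S → F
  | none => ∑ σ, v.2.1 σ (c.M σ w.1) - w.2.1.1 v.1.2.2.1 + δ v.1.2.2.1 w.1
  | some σ => v.2.1 σ w.1 - w.2.1.1 (c.N σ v.1.2.2.1)

def betaF (δ : A →ₗ[F] B →ₗ[F] F) (v : VV A B S) (w : WW B c.T) : ZZ A B S :=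
  w.2.2.1 • v.1 + w.2.2.2 • c.C v.1 + (0, 0, (0, v.2.2 • w.1, c.col δ v w))

theorem col_add_left (δ : A →ₗ[F] B →ₗ[F] F) (v v' : VV A B S) (w : WW B c.T) :
    c.col δ (v + v') w = c.col δ v w + c.col δ v' w := by
  funext o
  cases o <;> simp [col, Finset.sum_add_distrib] <;> ring

theorem col_smul_left (δ : A →ₗ[F] B →ₗ[F] F) (x : F) (v : VV A B S) (w : WW B c.T) :
    c.col δ (x • v) w = x • c.col δ v w := by
  funext o
  cases o <;> simp [col, ← Finset.mul_sum] <;> ring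

theorem col_add_right (δ : A →ₗ[F] B →ₗ[F] F) (v : VV A B S) (w w' : WW B c.T) :
    c.col δ v (w + w') = c.col δ v w + c.col δ v w' := by
  funext o
  cases o <;> simp [col, Finset.sum_add_distrib] <;> ring

theorem col_smul_right (δ : A →ₗ[F] B →ₗ[F] F) (x : F) (v : VV A B S) (w : WW B c.T) :
    c.col δ v (x • w) = x • c.col δ v w := by
  funext o
  cases o <;> simp [col, ← Finset.mul_sum] <;> ring

def beta (δ : A →ₗ[F] B →ₗ[F] F) : VV A B S →ₗ[F] WW B c.T →ₗ[F] ZZ A B S :=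
  LinearMap.mk₂ F (c.betaF δ)
    (by
      intro v v' w
      simp only [betaF, col_add_left, Prod.fst_add, Prod.snd_add, map_add, smul_add, add_smul]
      ext <;> simp <;> abel)
    (by
      intro x v w
      simp only [betaF, col_smul_left, Prod.smul_fst, Prod.smul_snd, map_smul, smul_add]
      ext <;> simp [smul_smul, mul_comm, mul_left_comm])
    (by
      intro v w w'
      simp only [betaF, col_add_right, Prod.fst_add, Prod.snd_add, smul_add, add_smul]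
      ext <;> simp <;> abel)
    (by
      intro x v w
      simp only [betaF, col_smul_right, Prod.smul_fst, Prod.smul_snd, smul_add]
      ext <;> simp [smul_smul, mul_comm, mul_left_comm, mul_assoc])

theorem beta_apply (δ : A →ₗ[F] B →ₗ[F] F) (v : VV A B S) (w : WW B c.T) :
    c.beta δ v w = w.2.2.1 • v.1 + w.2.2.2 • c.C v.1 + (0, 0, (0, v.2.2 • w.1, c.col δ v w)) :=
  rfl

theorem col_zero (δ : A →ₗ[F] B →ₗ[F] F) (v : VV A B S) (y y' : F) :
    c.col δ v (0, 0, y, y') = 0 := by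
  funext o
  cases o <;> simp [col]

theorem col_zero' (δ : A →ₗ[F] B →ₗ[F] F) (s t x : F) (w : WW B c.T) :
    c.col δ ((s, t, 0), 0, x) w = 0 := by
  funext o
  cases o <;> simp [col]

theorem beta_e (δ : A →ₗ[F] B →ₗ[F] F) (v : VV A B S) : c.beta δ v (0, 0, 1, 0) = v.1 := by
  simp [beta_apply, col_zero]

theorem beta_e' (δ : A →ₗ[F] B →ₗ[F] F) (v : VV A B S) :
    c.beta δ v (0, 0, 0, 1) = c.C v.1 := by
  simp [beta_apply, col_zero]

theorem lin_rigid {O : Set A} (hO : c.Cl O) {δ δ' : A →ₗ[F] B →ₗ[F] F}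
    (hδ : ∀ a ∈ O, δ a = 0) (hδ' : ∀ a ∈ O, δ' a = 0) (RV : VV A B S → VV A B S → Prop)
    (RW : WW B c.T → WW B c.T → Prop)
    (f0 : ∀ w, ∃ w', RW w w')
    (f1 : ∀ w w', RW w w' → ∀ v, ∃ v', RV v v' ∧ c.beta δ v w = c.beta δ' v' w')
    (f2 : ∀ v v', RV v v' → ∀ w, ∃ w', RW w w' ∧ c.beta δ v w = c.beta δ' v' w')
    (cV1 : ∀ v v', RV v v' → c.beta δ v (0, 0, 1, 0) = c.beta δ' v' (0, 0, 1, 0))
    (cV2 : ∀ v v', RV v v' → c.beta δ v (c.b0, 0, 0, 0) = c.beta δ' v' (c.b0, 0, 0, 0))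
    (cW1 : ∀ w w', RW w w' → c.beta δ (0, 0, 1) w = c.beta δ' (0, 0, 1) w')
    (cW2 : ∀ w w', RW w w' → c.beta δ ((1, 0, 0), 0, 0) w = c.beta δ' ((1, 0, 0), 0, 0) w') :
    δ = δ' ∧ (∀ v v', RV v v' → v' = v) ∧ ∀ w w', RW w w' → w' = w := by
  have dV : ∀ v v', RV v v' → v'.1 = v.1 ∧ v'.2.2 = v.2.2 := by
    intro v v' h
    refine ⟨by simpa [beta_e] using (cV1 v v' h).symm, ?_⟩
    have := congrArg (fun z : ZZ A B S => z.2.2.2.1) (cV2 v v' h)
    simp only [beta_apply, zero_smul, zero_add] at this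
    exact (smul_left_injective F c.hb0 this).symm
  have dW : ∀ w w', RW w w' → w'.1 = w.1 ∧ w'.2.2 = w.2.2 := by
    intro w w' h
    have h1 := congrArg (fun z : ZZ A B S => z.2.2.2.1) (cW1 w w' h)
    have h2 := congrArg (fun z : ZZ A B S => z.1) (cW2 w w' h)
    have h3 := congrArg (fun z : ZZ A B S => z.2.1) (cW2 w w' h)
    simp [beta_apply, c.hC] at h1 h2 h3
    exact ⟨h1.symm, Prod.ext h2.symm h3.symm⟩
  have rel : ∀ v v' w w', RV v v' → RW w w' → c.beta δ v w = c.beta δ' v' w' →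
      (∀ σ, (v'.2.1 - v.2.1) σ w.1 = (w'.2.1.1 - w.2.1.1) (c.N σ v.1.2.2.1)) ∧
      (w'.2.1.1 - w.2.1.1) v.1.2.2.1 + (δ - δ') v.1.2.2.1 w.1 =
        ∑ σ, (v'.2.1 - v.2.1) σ (c.M σ w.1) := by
    intro v v' w w' hv hw h
    obtain ⟨e1, e2⟩ := dV v v' hv
    obtain ⟨e3, e4⟩ := dW w w' hw
    rw [beta_apply, beta_apply, e1, e2, e3, e4] at h
    have h' : c.col δ v w = c.col δ' v' w' :=
      congrArg (fun z : ZZ A B S => z.2.2.2.2) (add_left_cancel h)
    constructor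
    · intro σ
      have := congrFun h' (some σ)
      simp only [col, e1, e3] at this
      simp only [Pi.sub_apply, LinearMap.sub_apply]
      linear_combination -this
    · have := congrFun h' none
      simp only [col, e1, e3] at this
      simp only [Pi.sub_apply, LinearMap.sub_apply, Finset.sum_sub_distrib]
      linear_combination this
  obtain ⟨SB, hSB, hall⟩ := hO
  let D : B → Submodule F A := fun b =>
    { carrier := {a | ∀ w w', RW w w' → w.1 = b → (w'.2.1.1 - w.2.1.1) a = 0}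
      add_mem' := fun hx hy w w' hw hb => by rw [map_add, hx w w' hw hb, hy w w' hw hb, add_zero]
      zero_mem' := fun w w' _ _ => map_zero _
      smul_mem' := fun t x hx w w' hw hb => by rw [map_smul, hx w w' hw hb, smul_zero] }
  have hT : ∀ (w w' : WW B c.T), ∀ a ∈ c.T, (w'.2.1.1 - w.2.1.1) a = 0 := by
    intro w w' a ha
    rw [LinearMap.sub_apply, (Submodule.mem_dualAnnihilator _).1 w'.2.1.2 _ ha,
      (Submodule.mem_dualAnnihilator _).1 w.2.1.2 _ ha, sub_zero]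
  have hd : ∀ a ∈ O, ∀ b, (δ - δ') a b = 0 := by
    intro a ha b
    simp [hδ a ha, hδ' a ha]
  have main : ∀ b ∈ SB, ∀ a, a ∈ D b := by
    refine hall D (fun b a ha w w' _ _ => hT w w' a ha) ?_ ?_
    · intro a ha b h w w' hw hb
      obtain ⟨v', hv, h1⟩ := f1 w w' hw ((0, 0, (a, 0, 0)), 0, 0)
      have h2 := (rel _ _ _ _ hv hw h1).2
      rw [hb, hd a ha, add_zero] at h2
      refine h2.trans (Finset.sum_eq_zero fun σ _ => ?_)
      obtain ⟨u', hu, h'⟩ := f2 _ _ hv (c.M σ b, 0, 0, 0)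
      exact ((rel _ _ _ _ hv hu h').1 σ).trans (h σ _ _ hu rfl)
    · intro a ha haT b σ0 h w w' hw hb
      obtain ⟨v', hv, h1⟩ := f1 w w' hw ((0, 0, (a, 0, 0)), 0, 0)
      have h2 := (rel _ _ _ _ hv hw h1).1 σ0
      obtain ⟨u', hu, h'⟩ := f2 _ _ hv (b, 0, 0, 0)
      have h3 := (rel _ _ _ _ hv hu h').2
      rw [hd a ha, add_zero, hT _ _ a haT, Finset.sum_eq_single σ0] at h3
      · rw [hb] at h2
        exact h2.symm.trans h3.symm
      · intro σ _ hσ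
        obtain ⟨u'', hu', h''⟩ := f2 _ _ hv (c.M σ b, 0, 0, 0)
        refine ((rel _ _ _ _ hv hu' h'').1 σ).trans ?_
        simp [h σ hσ]
      · simp
  have hP : ∀ v v', RV v v' → v'.2.1 - v.2.1 = 0 := by
    intro v v' hv
    funext σ
    refine LinearMap.ext_on hSB fun b hb => ?_
    obtain ⟨u', hu, h'⟩ := f2 _ _ hv (b, 0, 0, 0)
    exact ((rel _ _ _ _ hv hu h').1 σ).trans (main b hb _ _ _ hu rfl)
  have hΔ : δ - δ' = 0 := by
    refine LinearMap.ext fun a => LinearMap.ext_on hSB fun b hb => ?_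
    obtain ⟨w', hw⟩ := f0 (b, 0, 0, 0)
    obtain ⟨v', hv, h1⟩ := f1 _ w' hw ((0, 0, (a, 0, 0)), 0, 0)
    have h2 := (rel _ _ _ _ hv hw h1).2
    rw [hP _ _ hv, main b hb a _ _ hw rfl] at h2
    simpa using h2
  refine ⟨sub_eq_zero.1 hΔ, fun v v' hv => ?_, fun w w' hw => ?_⟩
  · exact Prod.ext (dV v v' hv).1 (Prod.ext (sub_eq_zero.1 (hP v v' hv)) (dV v v' hv).2)
  · refine Prod.ext (dW w w' hw).1 (Prod.ext (Subtype.ext (sub_eq_zero.1 ?_)) (dW w w' hw).2)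
    ext a
    obtain ⟨v', hv, h⟩ := f1 w w' hw ((0, 0, (a, 0, 0)), 0, 0)
    have h2 := (rel _ _ _ _ hv hw h).2
    rw [hΔ, hP _ _ hv] at h2
    simpa using h2

/-- The group of the chain with twist `δ`. -/
abbrev G (δ : A →ₗ[F] B →ₗ[F] F) : Type :=
  Grp (V := VV A B S) (W := WW B c.T) (Z := ZZ A B S) (c.beta δ)

/-- The seven constants. -/
def cst (δ : A →ₗ[F] B →ₗ[F] F) : Fin 7 → c.G δ :=
  ![tor _ (-1) 1, tor _ 1 (-1), iW _ (0, 0, 1, 0), iW _ (0, 0, 0, 1), iW _ (c.b0, 0, 0, 0),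
    iV _ (0, 0, 1), iV _ ((1, 0, 0), 0, 0)]

theorem grp_rigid {O : Set A} (hO : c.Cl O) {δ δ' : A →ₗ[F] B →ₗ[F] F}
    (hδ : ∀ a ∈ O, δ a = 0) (hδ' : ∀ a ∈ O, δ' a = 0) {k : ℕ} (hk : 12 ≤ k)
    (Bf : BF (c.G δ) (c.G δ') k) {cs : List _}
    (hcs : cs = List.ofFn fun i => (c.cst δ i, c.cst δ' i)) (hE : Bf.E cs) :
    δ = δ' ∧ (∀ v v', Bf.E ((iV _ v, iV _ v') :: cs) → v' = v) ∧
      (∀ w w', Bf.E ((iW _ w, iW _ w') :: cs) → w' = w) ∧
      ∀ z z', Bf.E ((iZ _ z, iZ _ z') :: cs) → z' = z := by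
  have hm : ∀ i, (c.cst δ i, c.cst δ' i) ∈ cs := fun i => hcs ▸ List.mem_ofFn.2 ⟨i, rfl⟩
  have hlen : cs.length = 7 := by rw [hcs]; simp
  have m0 : (tor _ (-1) 1, tor _ (-1) 1) ∈ cs := hm 0
  have m1 : (tor _ 1 (-1), tor _ 1 (-1)) ∈ cs := hm 1
  have m2 : (iW _ (0, 0, 1, 0), iW _ (0, 0, 1, 0)) ∈ cs := hm 2
  have m3 : (iW _ (0, 0, 0, 1), iW _ (0, 0, 0, 1)) ∈ cs := hm 3
  have m4 : (iW _ (c.b0, 0, 0, 0), iW _ (c.b0, 0, 0, 0)) ∈ cs := hm 4
  have m5 : (iV _ (0, 0, 1), iV _ (0, 0, 1)) ∈ cs := hm 5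
  have m6 : (iV _ ((1, 0, 0), 0, 0), iV _ ((1, 0, 0), 0, 0)) ∈ cs := hm 6
  have hZ := Bf.fixZ (by omega) m0 m1 Prod.fst c.C m2 m3 m6 Prod.fst_surjective
    (c.beta_e δ) (c.beta_e δ') (c.beta_e' δ) (c.beta_e' δ') c.gen
  have hβ : ∀ l, Bf.E l → l.length ≤ 10 → (∀ x ∈ cs, x ∈ l) → ∀ v v' w w',
      (iV _ v, iV _ v') ∈ l → (iW _ w, iW _ w') ∈ l → c.beta δ v w = c.beta δ' v' w' := by
    intro l hl hl' hs v v' w w' h1 h2
    exact (hZ _ _ (Bf.sub (Bf.beta hl (by omega) h1 h2) (by simp +contextual [hs]))).symm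
  obtain ⟨h1, h2, h3⟩ := c.lin_rigid hO hδ hδ' (fun v v' => Bf.E ((iV _ v, iV _ v') :: cs))
    (fun w w' => Bf.E ((iW _ w, iW _ w') :: cs)) (fun w => Bf.forthW hE (by omega) m0 w)
    (by
      intro w w' hw v
      obtain ⟨v', h⟩ := Bf.forthV hw (by simp; omega) (by simp [m1]) v
      exact ⟨v', Bf.sub h (by simp +contextual),
        hβ _ h (by simp; omega) (by simp +contextual) _ _ _ _ (by simp) (by simp)⟩)
    (by
      intro v v' hv w
      obtain ⟨w', h⟩ := Bf.forthW hv (by simp; omega) (by simp [m0]) w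
      exact ⟨w', Bf.sub h (by simp +contextual),
        hβ _ h (by simp; omega) (by simp +contextual) _ _ _ _ (by simp) (by simp)⟩)
    (fun v v' h => hβ _ h (by simp; omega) (by simp +contextual) _ _ _ _ (by simp) (by simp [m2]))
    (fun v v' h => hβ _ h (by simp; omega) (by simp +contextual) _ _ _ _ (by simp) (by simp [m4]))
    (fun v v' h => hβ _ h (by simp; omega) (by simp +contextual) _ _ _ _ (by simp [m5]) (by simp))
    (fun v v' h => hβ _ h (by simp; omega) (by simp +contextual) _ _ _ _ (by simp [m6]) (by simp))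
  exact ⟨h1, h2, h3, hZ⟩

theorem rigid {O : Set A} (hO : c.Cl O) {δ : A →ₗ[F] B →ₗ[F] F} (hδ : ∀ a ∈ O, δ a = 0) :
    Rigid (c.G δ) 12 (List.ofFn (c.cst δ)) := by
  intro Bf g g' h
  have hcs : (List.ofFn (c.cst δ)).map (fun x => (x, x)) =
      List.ofFn fun i => (c.cst δ i, c.cst δ i) := by
    rw [List.map_ofFn]; rfl
  obtain ⟨-, h1, h2, h3⟩ := c.grp_rigid hO hδ hδ le_rfl Bf hcs (Bf.sub h (by simp +contextual))
  have hm : ∀ i, (c.cst δ i, c.cst δ i) ∈ (List.ofFn (c.cst δ)).map (fun x => (x, x)) :=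
    fun i => hcs ▸ List.mem_ofFn.2 ⟨i, rfl⟩
  exact Bf.fixAll (by simp) (hm 0) (hm 1) h1 h2 h3 g g' h

theorem exists_twist [Finite A] [Finite B] {O : Set A} (hO : c.Cl O) {P : Type} [Finite P]
    (tw : P → A →ₗ[F] B →ₗ[F] F)
    (hinj : Function.Injective tw) (htw : ∀ p, ∀ a ∈ O, tw p a = 0)
    (hcard : Nat.card (c.G 0) ^ 7 < Nat.card P) :
    ∃ p, IsEmpty (c.G 0 ≃* c.G (tw p)) := by
  by_contra hne
  have hex : ∀ p, Nonempty (c.G 0 ≃* c.G (tw p)) := by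
    intro p
    by_contra h
    exact hne ⟨p, not_nonempty_iff.1 h⟩
  have : Finite (Dual F B) := Module.finite_of_finite F
  have : Finite (Dual F A) := Module.finite_of_finite F
  let φ := fun p => (hex p).some
  have hinj' : Function.Injective
      (fun p => fun i : Fin 7 => (φ p).symm (c.cst (tw p) i)) := by
    intro p p' h
    apply hinj
    refine (c.grp_rigid hO (htw p) (htw p') le_rfl (BF.ofIso ((φ p).symm.trans (φ p')) 12) rfl ?_).1
    intro x hx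
    obtain ⟨i, rfl⟩ := List.mem_ofFn.1 hx
    have : (φ p).symm (c.cst (tw p) i) = (φ p').symm (c.cst (tw p') i) := congrFun h i
    simp only [MulEquiv.trans_apply]
    rw [this]; simp
  have := Nat.card_le_card_of_injective _ hinj'
  rw [Nat.card_fun] at this
  simp at this
  omega

/-- Forms that vanish on the top subspace. -/
def YY : Submodule F (A →ₗ[F] B →ₗ[F] F) where
  carrier := {Y | ∀ a ∈ c.T, Y a = 0}
  add_mem' := by
    intro x y hx hy a ha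
    simp [hx a ha, hy a ha]
  zero_mem' := by intro a _; rfl
  smul_mem' := by
    intro t x hx a ha
    simp [hx a ha]

def negY (Y : c.YY) : c.YY := ⟨-Y.1, fun a ha => by simp [Y.2 a ha]⟩

theorem negY_negY (Y : c.YY) : c.negY (c.negY Y) = Y := Subtype.ext (neg_neg Y.1)

def flipY (Y : c.YY) (b : B) : c.T.dualAnnihilator :=
  ⟨Y.1.flip b, (Submodule.mem_dualAnnihilator _).2 fun a ha => by simp [Y.2 a ha]⟩

def PhiV (Y : c.YY) (v : VV A B S) : VV A B S :=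
  (v.1, v.2.1 + fun σ => Y.1 (c.N σ v.1.2.2.1), v.2.2)

def PhiW (Y : c.YY) (w : WW B c.T) : WW B c.T := (w.1, w.2.1 + c.flipY Y w.1, w.2.2)

def Phi {δ δ' : A →ₗ[F] B →ₗ[F] F} (Y : c.YY) (g : c.G δ) : c.G δ' :=
  Grp.mapc (c.PhiV Y) (c.PhiW Y) g

/-- The defect of a form with respect to a twist. -/
def dft (δ Y : A →ₗ[F] B →ₗ[F] F) : A →ₗ[F] B →ₗ[F] F :=
  Y - δ - ∑ σ, Y.compl₁₂ (c.N σ) (c.M σ)

theorem dft_apply (δ Y : A →ₗ[F] B →ₗ[F] F) (a : A) (b : B) :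
    c.dft δ Y a b = Y a b - δ a b - ∑ σ, Y (c.N σ a) (c.M σ b) := by
  simp [dft, LinearMap.sum_apply]

theorem Phi_a {δ δ' : A →ₗ[F] B →ₗ[F] F} (Y : c.YY) (g : c.G δ) :
    (c.Phi Y g : c.G δ').a = g.a := Grp.mapc_a _ _ _
theorem Phi_v {δ δ' : A →ₗ[F] B →ₗ[F] F} (Y : c.YY) (g : c.G δ) :
    (c.Phi Y g : c.G δ').v = c.PhiV Y g.v := Grp.mapc_v _ _ _
theorem Phi_z {δ δ' : A →ₗ[F] B →ₗ[F] F} (Y : c.YY) (g : c.G δ) :
    (c.Phi Y g : c.G δ').z = g.z := Grp.mapc_z _ _ _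
theorem Phi_w {δ δ' : A →ₗ[F] B →ₗ[F] F} (Y : c.YY) (g : c.G δ) :
    (c.Phi Y g : c.G δ').w = c.PhiW Y g.w := Grp.mapc_w _ _ _
theorem Phi_d {δ δ' : A →ₗ[F] B →ₗ[F] F} (Y : c.YY) (g : c.G δ) :
    (c.Phi Y g : c.G δ').d = g.d := Grp.mapc_d _ _ _

theorem PhiV_fst (Y : c.YY) (v : VV A B S) : (c.PhiV Y v).1 = v.1 := rfl
theorem PhiW_fst (Y : c.YY) (w : WW B c.T) : (c.PhiW Y w).1 = w.1 := rfl

theorem PhiV_neg (Y : c.YY) (v : VV A B S) : c.PhiV (c.negY Y) (c.PhiV Y v) = v := by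
  obtain ⟨r, P, x⟩ := v
  simp only [PhiV, Prod.mk.injEq, true_and, and_true]
  funext σ
  simp [negY]

theorem PhiW_neg (Y : c.YY) (w : WW B c.T) : c.PhiW (c.negY Y) (c.PhiW Y w) = w := by
  obtain ⟨b, Q, x⟩ := w
  simp only [PhiW, Prod.mk.injEq, true_and, and_true]
  ext a
  simp [negY, flipY]

theorem PhiV_lin (Y : c.YY) (t : F) (v v' : VV A B S) :
    c.PhiV Y (t • v + v') = t • c.PhiV Y v + c.PhiV Y v' := by
  obtain ⟨r, P, x⟩ := v
  obtain ⟨r', P', x'⟩ := v'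
  simp only [PhiV, Prod.smul_mk, Prod.mk_add_mk, Prod.mk.injEq, true_and, and_true]
  funext σ
  simp
  abel

theorem PhiW_lin (Y : c.YY) (t : F) (w w' : WW B c.T) :
    c.PhiW Y (w + t • w') = c.PhiW Y w + t • c.PhiW Y w' := by
  obtain ⟨r, P, x⟩ := w
  obtain ⟨r', P', x'⟩ := w'
  simp only [PhiW, Prod.smul_mk, Prod.mk_add_mk, Prod.mk.injEq, true_and, and_true]
  ext a
  simp [flipY]
  ring

theorem Phi_neg {δ δ' : A →ₗ[F] B →ₗ[F] F} (Y : c.YY) (g : c.G δ) :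
    (c.Phi (c.negY Y) (c.Phi Y g : c.G δ') : c.G δ) = g := by
  refine Grp.ext ?_ ?_ ?_ ?_ ?_
  · rw [Phi_a, Phi_a]
  · rw [Phi_v, Phi_v, PhiV_neg]
  · rw [Phi_z, Phi_z]
  · rw [Phi_w, Phi_w, PhiW_neg]
  · rw [Phi_d, Phi_d]

theorem Phi_inj {δ δ' : A →ₗ[F] B →ₗ[F] F} (Y : c.YY) :
    Injective (c.Phi Y : c.G δ → c.G δ') := LeftInverse.injective (c.Phi_neg Y)

/-- The bijection of Duplicator. -/
def bij {δ δ' : A →ₗ[F] B →ₗ[F] F} (Y : A → B → c.YY) : c.G δ ≃ c.G δ' where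
  toFun g := c.Phi (Y g.v.1.2.2.1 g.w.1) g
  invFun g := c.Phi (c.negY (Y g.v.1.2.2.1 g.w.1)) g
  left_inv g := by
    simp only [Phi_v, Phi_w, PhiV_fst, PhiW_fst]
    exact c.Phi_neg _ g
  right_inv g := by
    simp only [Phi_v, Phi_w, PhiV_fst, PhiW_fst]
    have := c.Phi_neg (δ' := δ) (c.negY (Y g.v.1.2.2.1 g.w.1)) g
    rw [negY_negY] at this
    exact this

theorem bij_apply {δ δ' : A →ₗ[F] B →ₗ[F] F} (Y : A → B → c.YY) (g : c.G δ) :
    (c.bij Y g : c.G δ') = c.Phi (Y g.v.1.2.2.1 g.w.1) g := rfl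

theorem beta_Phi {δ : A →ₗ[F] B →ₗ[F] F} (Y : c.YY) (v : VV A B S) (w : WW B c.T)
    (h : c.dft δ Y.1 v.1.2.2.1 w.1 = 0) :
    c.beta δ (c.PhiV Y v) (c.PhiW Y w) = c.beta 0 v w := by
  have : c.col δ (c.PhiV Y v) (c.PhiW Y w) = c.col 0 v w := by
    funext o
    rw [dft_apply] at h
    cases o with
    | none =>
      simp [col, PhiV, PhiW, flipY, Finset.sum_add_distrib]
      linear_combination -h
    | some σ => simp [col, PhiV, PhiW, flipY]
  rw [beta_apply, beta_apply, this]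
  simp only [PhiV, PhiW]

theorem Phi_mul {δ : A →ₗ[F] B →ₗ[F] F} (Y : c.YY) (g h : c.G 0)
    (hd : c.dft δ Y.1 g.v.1.2.2.1 h.w.1 = 0) :
    (c.Phi Y (g * h) : c.G δ) = c.Phi Y g * c.Phi Y h := by
  refine Grp.ext ?_ ?_ ?_ ?_ ?_
  · rw [Phi_a, mul_a, mul_a, Phi_a, Phi_a]
  · rw [Phi_v, mul_v, mul_v, Phi_a, Phi_v, Phi_v, PhiV_lin]
  · rw [Phi_z, mul_z, mul_z, Phi_a, Phi_v, Phi_w, Phi_z, Phi_z, Phi_d, c.beta_Phi Y _ _ hd]
  · rw [Phi_w, mul_w, mul_w, Phi_d, Phi_w, Phi_w, PhiW_lin]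
  · rw [Phi_d, mul_d, mul_d, Phi_d, Phi_d]

theorem Phi_congr {δ δ' : A →ₗ[F] B →ₗ[F] F} {Y Y' : c.YY} (g : c.G δ)
    (h1 : ∀ σ, Y'.1 (c.N σ g.v.1.2.2.1) = Y.1 (c.N σ g.v.1.2.2.1))
    (h2 : ∀ a, Y'.1 a g.w.1 = Y.1 a g.w.1) : (c.Phi Y' g : c.G δ') = c.Phi Y g := by
  have e1 : c.PhiV Y' g.v = c.PhiV Y g.v := by simp only [PhiV, h1]
  have e2 : c.flipY Y' g.w.1 = c.flipY Y g.w.1 := by
    ext a
    simp [flipY, h2]
  simp only [Phi, Grp.mapc, e1, PhiW, e2]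

theorem not_wins {δ : A →ₗ[F] B →ₗ[F] F} {k : ℕ}
    (Inv : ℕ → (Fin k → A) → (Fin k → B) → c.YY → Prop)
    (hG : ∀ l as bs Y, Inv l as bs Y → ∀ i, c.dft δ Y.1 (as i) = 0)
    (hstep : ∀ l as bs Y, Inv (l + 1) as bs Y → ∀ i a b, ∃ Y',
      Inv l (update as i a) (update bs i b) Y' ∧
        (∀ j σ, Y'.1 (c.N σ (as j)) = Y.1 (c.N σ (as j))) ∧ ∀ j x, Y'.1 x (bs j) = Y.1 x (bs j))
    (l : ℕ) : ∀ (p : Fin k → Option (c.G 0 × c.G δ)) (Y : c.YY),
      Inv l (fun j => (p j).elim 0 fun x => x.1.v.1.2.2.1)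
        (fun j => (p j).elim 0 fun x => x.1.w.1) Y →
      (∀ i x, p i = some x → x.2 = c.Phi Y x.1) → ¬ Wins l p := by
  induction l with
  | zero => intro p Y _ _ h; exact h
  | succ l ih =>
    rintro p Y hl hp ⟨i, hi⟩
    choose Y' h1 h4 h5 using hstep l _ _ Y hl i
    obtain ⟨g, hg⟩ := hi (c.bij Y')
    have hI : Inv l (fun j => (update p i (some (g, c.bij Y' g)) j).elim 0 fun x => x.1.v.1.2.2.1)
        (fun j => (update p i (some (g, c.bij Y' g)) j).elim 0 fun x => x.1.w.1)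
        (Y' g.v.1.2.2.1 g.w.1) := by
      convert h1 g.v.1.2.2.1 g.w.1 using 1
      · funext j
        by_cases hj : j = i
        · subst hj; simp
        · simp [hj]
      · funext j
        by_cases hj : j = i
        · subst hj; simp
        · simp [hj]
    have hinv : ∀ j x, update p i (some (g, c.bij Y' g)) j = some x →
        x.2 = c.Phi (Y' g.v.1.2.2.1 g.w.1) x.1 := by
      intro j x hx
      by_cases hj : j = i
      · subst hj
        rw [update_self] at hx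
        cases hx
        exact c.bij_apply _ _
      · rw [update_of_ne hj] at hx
        rw [hp j x hx]
        exact (c.Phi_congr _ (by simpa [hx] using h4 g.v.1.2.2.1 g.w.1 j)
          (by simpa [hx] using h5 g.v.1.2.2.1 g.w.1 j)).symm
    rcases hg with hg | hg
    · apply hg
      constructor
      · intro a b x y hx hy
        rw [hinv a x hx, hinv b y hy]
        exact (c.Phi_inj _).eq_iff.symm
      · intro a b e x y z hx hy hz
        have h6 := hG _ _ _ _ hI a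
        simp only [hx, Option.elim_some] at h6
        rw [hinv a x hx, hinv b y hy, hinv e z hz, ← c.Phi_mul _ _ _ (by rw [h6]; rfl)]
        exact (c.Phi_inj _).eq_iff.symm
    · exact ih _ _ hI hinv hg

theorem card_bounds [Finite A] [Finite B] (δ : A →ₗ[F] B →ₗ[F] F) (x y : ℕ)
    (hA : Nat.card A = 3 ^ x) (hB : Nat.card B = 3 ^ y) :
    3 ^ y ≤ Nat.card (c.G δ) ∧
      Nat.card (c.G δ) ≤ 3 ^ (11 + 2 * Fintype.card S + 3 * x + (3 + Fintype.card S) * y) := by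
  have : Finite (Dual F B) := Module.finite_of_finite F
  have : Finite (Dual F A) := Module.finite_of_finite F
  have hZ : Nat.card (ZZ A B S) = 3 ^ (3 + x + y + Fintype.card S) := by
    simp only [Nat.card_prod, Nat.card_fun, Nat.card_zmod, hA, hB, Finite.card_option,
      Nat.card_eq_fintype_card (α := S)]
    ring
  have hV : Nat.card (VV A B S) = 3 ^ (4 + x + y + Fintype.card S + Fintype.card S * y) := by
    rw [Nat.card_prod, hZ, Nat.card_prod, Nat.card_fun, card_dual, hB, Nat.card_zmod,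
      Nat.card_eq_fintype_card (α := S)]
    ring
  have hQ : Nat.card c.T.dualAnnihilator ≤ 3 ^ x := by
    rw [← hA, ← card_dual A]
    exact Nat.card_le_card_of_injective _ Subtype.val_injective
  have hW : Nat.card (WW B c.T) ≤ 3 ^ (2 + x + y) := by
    rw [Nat.card_prod, Nat.card_prod, Nat.card_prod, hB, Nat.card_zmod]
    calc 3 ^ y * (Nat.card c.T.dualAnnihilator * (3 * 3)) ≤ 3 ^ y * (3 ^ x * (3 * 3)) := by
          gcongr
      _ = _ := by ring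
  have hW' : 1 ≤ Nat.card (WW B c.T) := Nat.card_pos
  rw [Grp.card_eq, hV, hZ]
  constructor
  · have h1 : 3 ^ y ≤ 3 ^ (3 + x + y + Fintype.card S) :=
      Nat.pow_le_pow_right (by norm_num) (by omega)
    have h2 : 1 ≤ 3 ^ (4 + x + y + Fintype.card S + Fintype.card S * y) :=
      Nat.one_le_pow _ _ (by norm_num)
    calc 3 ^ y ≤ 4 * (1 * 3 ^ (3 + x + y + Fintype.card S) * 1) := by omega
      _ ≤ _ := by gcongr
  · calc _ ≤ 3 ^ 2 * (3 ^ (4 + x + y + Fintype.card S + Fintype.card S * y) *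
          3 ^ (3 + x + y + Fintype.card S) * 3 ^ (2 + x + y)) := by gcongr; norm_num
      _ = _ := by ring

theorem finite_G [Finite A] [Finite B] (δ : A →ₗ[F] B →ₗ[F] F) : Finite (c.G δ) := by
  have : Finite (Dual F B) := Module.finite_of_finite F
  have : Finite (Dual F A) := Module.finite_of_finite F
  infer_instance

end Ch

end Pool.Agent.MP_45960e_lc.PR
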