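import Pool.Agent.Mg.F45960e.Gfad5e2

set_option linter.unusedSectionVars false

section
/-!
Definitions for the cyclic chain.
-/

namespace Pool.Agent.MP_45960e_lc.PR

open Module

/-- A periodic orbit of functionals, any `w` of one period being independent. -/
structure Orb (D : Type) [AddCommGroup D] [Module F D] (p w : ℕ) where
  G : D →ₗ[F] D
  x : ℕ → Dual F D
  surj : Function.Surjective G
  step : ∀ t y, x (t + 1) (G y) = x t y
  per : ∀ t, x (t + p) = x t
  span : Submodule.span F (Set.range x) = ⊤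
  ind : ∀ J : Finset ℕ, (∀ t ∈ J, t < p) → J.card ≤ w → ∀ t ∈ J,
    ∃ y, x t y = 1 ∧ ∀ s ∈ J, s ≠ t → x s y = 0

variable {D D' E E' : Type} [AddCommGroup D] [Module F D] [AddCommGroup D'] [Module F D']
  [AddCommGroup E] [Module F E] [AddCommGroup E'] [Module F E'] {q : ℕ}

/-- Expansion of a family of endomorphisms on small subspaces. -/
def Exp2 (π : E →ₗ[F] E') (n : Fin q → E →ₗ[F] E) (u d : ℕ) : Prop :=
  ∀ S S' : Submodule F E, finrank F S ≤ u → finrank F S' ≤ u →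
    ∀ K : Submodule F (Fin q → E),
      (∀ s ∈ K, (∀ σ, s σ ∈ S) ∧ ∑ σ, n σ (s σ) ∈ S' ⊔ LinearMap.ker π) → finrank F K ≤ d

/-- The shift `a ↦ f ∘ a ∘ G`. -/
def sh (G : D →ₗ[F] D) (f : E →ₗ[F] E) : (D →ₗ[F] E) →ₗ[F] (D →ₗ[F] E) :=
  LinearMap.llcomp F D E E f ∘ₗ LinearMap.lcomp F E G

theorem sh_apply (G : D →ₗ[F] D) (f : E →ₗ[F] E) (a : D →ₗ[F] E) (y : D) :
    sh G f a y = f (a (G y)) := rfl

/-- The pure vector `y ↦ x y • e`. -/
def pu (x : Dual F D) : E →ₗ[F] (D →ₗ[F] E) := LinearMap.smulRightₗ x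

theorem pu_apply (x : Dual F D) (e : E) (y : D) : pu x e y = x y • e := rfl

theorem sh_pu {p w : ℕ} (o : Orb D p w) (f : E →ₗ[F] E) (t : ℕ) (e : E) :
    sh o.G f (pu (o.x (t + 1)) e) = pu (o.x t) (f e) := by
  ext y
  rw [sh_apply, pu_apply, pu_apply, o.step, map_smul]

/-- Pure vectors of a spanning family of functionals span. -/
theorem pu_induction [Module.Finite F D] {X : Set (Dual F D)} (hX : Submodule.span F X = ⊤)
    (S : Submodule F (D →ₗ[F] E)) (h : ∀ x ∈ X, ∀ e, pu x e ∈ S) (a : D →ₗ[F] E) : a ∈ S := by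
  have h1 : ∀ (x : Dual F D) (e : E), pu x e ∈ S := by
    intro x e
    have hx : x ∈ Submodule.span F X := hX ▸ Submodule.mem_top
    induction hx using Submodule.span_induction with
    | mem x hx => exact h x hx e
    | zero => simp [pu]
    | add x y _ _ hx hy => simpa [pu] using S.add_mem hx hy
    | smul c x _ hx => simpa [pu] using S.smul_mem c hx
  let b := Module.finBasis F D
  have e : a = ∑ i, pu (b.coord i) (a (b i)) := by
    refine b.ext fun j => ?_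
    rw [LinearMap.sum_apply, Finset.sum_eq_single j]
    · simp [pu_apply]
    · intro i _ hi
      simp [pu_apply, hi]
    · simp
  rw [e]
  exact S.sum_mem fun i _ => h1 _ _

/-- Bilinear forms. -/
abbrev Bil (A B : Type) [AddCommGroup A] [Module F A] [AddCommGroup B] [Module F B] : Type :=
  A →ₗ[F] B →ₗ[F] F

variable {p p' w : ℕ} (o : Orb D p w) (o' : Orb D' p' w)

/-- Restriction of a form to level `t`. -/
def res (t : ℕ) : Bil (D →ₗ[F] E) (D' →ₗ[F] E) →ₗ[F] Bil E E where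
  toFun Y := Y.compl₁₂ (pu (o.x t)) (pu (o'.x t))
  map_add' _ _ := rfl
  map_smul' _ _ := rfl

theorem res_apply (t : ℕ) (Y : Bil (D →ₗ[F] E) (D' →ₗ[F] E)) (e e' : E) :
    res o o' t Y e e' = Y (pu (o.x t) e) (pu (o'.x t) e') := rfl

variable (E) in
/-- Tensors supported on the levels in `J`. -/
def ZL (J : Finset ℕ) : Submodule F (Dual F (Bil (D →ₗ[F] E) (D' →ₗ[F] E))) :=
  ⨆ t ∈ J, LinearMap.range (res (E := E) o o' t).dualMap

variable (π : E →ₗ[F] E') (n : Fin q → E →ₗ[F] E)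

/-- Forms that vanish on the pebbled rows and columns. -/
def Van {ι : Type} (L : ℕ) (as rs : ι → D →ₗ[F] E) (bs : ι → D' →ₗ[F] E) :
    Submodule F (Bil (D →ₗ[F] E) (D' →ₗ[F] E)) where
  carrier := {η | (∀ i, η (as i) = 0) ∧ (∀ i σ, η (sh o.G (n σ) (as i)) = 0) ∧
    (∀ i, η (rs i) = 0) ∧ (∀ e, π e = 0 → η (pu (o.x L) e) = 0) ∧ ∀ i a, η a (bs i) = 0}
  add_mem' := by
    rintro x y ⟨a1, a2, a3, a4, a5⟩ ⟨b1, b2, b3, b4, b5⟩
    exact ⟨fun i => by simp [a1, b1], fun i σ => by simp [a2, b2], fun i => by simp [a3, b3],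
      fun e he => by simp [a4 e he, b4 e he], fun i a => by simp [a5, b5]⟩
  zero_mem' := ⟨fun _ => rfl, fun _ _ => rfl, fun _ => rfl, fun _ _ => rfl, fun _ _ => rfl⟩
  smul_mem' := by
    rintro c x ⟨a1, a2, a3, a4, a5⟩
    exact ⟨fun i => by simp [a1], fun i σ => by simp [a2], fun i => by simp [a3],
      fun e he => by simp [a4 e he], fun i a => by simp [a5]⟩

theorem mem_Van {ι : Type} (L : ℕ) (as rs : ι → D →ₗ[F] E) (bs : ι → D' →ₗ[F] E)
    (η : Bil (D →ₗ[F] E) (D' →ₗ[F] E)) : η ∈ Van o π n L as rs bs ↔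
      (∀ i, η (as i) = 0) ∧ (∀ i σ, η (sh o.G (n σ) (as i)) = 0) ∧
      (∀ i, η (rs i) = 0) ∧ (∀ e, π e = 0 → η (pu (o.x L) e) = 0) ∧ ∀ i a, η a (bs i) = 0 :=
  Iff.rfl

/-- `Y` kills the visible tensors on few levels below `l`. -/
def Low (W l : ℕ) (V : Submodule F (Bil (D →ₗ[F] E) (D' →ₗ[F] E)))
    (Y : Bil (D →ₗ[F] E) (D' →ₗ[F] E)) : Prop :=
  ∀ J : Finset ℕ, (∀ t ∈ J, t < l) → J.card ≤ 2 * W → ∀ z ∈ ZL E o o' J,
    (∀ η ∈ V, z η = 0) → z Y = 0

/-- The row `a` has no defect. -/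
def Gd (Y : Bil (D →ₗ[F] E) (D' →ₗ[F] E)) (a : D →ₗ[F] E) : Prop :=
  ∀ b, Y a b = ∑ σ, Y (sh o.G (n σ) a) (sh o'.G (n σ) b)

end Pool.Agent.MP_45960e_lc.PR

end

section
namespace Pool.Agent.MP_45960e_lc.PR

open Module

theorem quot_or {D : Type} [AddCommGroup D] [Module F D] [Module.Finite F D] {p w : ℕ}
    (hp : 1 ≤ p) (G : D →ₗ[F] D) (x : ℕ → Dual F D) (surj : Function.Surjective G)
    (step : ∀ t y, x (t + 1) (G y) = x t y) (per : ∀ t, x (t + p) = x t)
    (ind : ∀ J : Finset ℕ, (∀ t ∈ J, t < p) → J.card ≤ w → ∀ t ∈ J,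
      ∃ y, x t y = 1 ∧ ∀ s ∈ J, s ≠ t → x s y = 0) :
    ∃ d ≤ finrank F D, Nonempty (Orb (Fin d → F) p w) := by
  let N : Submodule F D := ⨅ t, LinearMap.ker (x t)
  have hm : ∀ y, y ∈ N ↔ ∀ t, x t y = 0 := fun y => by simp [N]
  have hN : N ≤ N.comap G := fun y hy => by
    rw [Submodule.mem_comap, hm]
    intro t
    rw [← per t, show t + p = t + p - 1 + 1 by omega, step]
    exact (hm y).1 hy _
  let e := (Module.finBasis F (D ⧸ N)).equivFun
  let G' := e.toLinearMap ∘ₗ N.mapQ N G hN ∘ₗ e.symm.toLinearMap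
  let x' : ℕ → Dual F (Fin (finrank F (D ⧸ N)) → F) := fun t =>
    N.liftQ (x t) (iInf_le _ t) ∘ₗ e.symm.toLinearMap
  have hf : ∀ z, ∃ y, e (N.mkQ y) = z := fun z => by
    obtain ⟨y, hy⟩ := N.mkQ_surjective (e.symm z)
    exact ⟨y, by rw [hy, e.apply_symm_apply]⟩
  have hG : ∀ y, G' (e (N.mkQ y)) = e (N.mkQ (G y)) := fun y => by
    simp only [G', LinearMap.comp_apply, LinearEquiv.coe_coe, e.symm_apply_apply]; rfl
  have hx : ∀ t y, x' t (e (N.mkQ y)) = x t y := fun t y => by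
    simp only [x', LinearMap.comp_apply, LinearEquiv.coe_coe, e.symm_apply_apply]; rfl
  refine ⟨finrank F (D ⧸ N), N.finrank_quotient_le, ⟨⟨G', x', fun z => ?_, fun t z => ?_,
    fun t => LinearMap.ext fun z => ?_, Submodule.span_eq_top_of_ne_zero fun z hz => ?_,
    fun J hJ hw t ht => ?_⟩⟩⟩
  · obtain ⟨y, rfl⟩ := hf z
    obtain ⟨y, rfl⟩ := surj y
    exact ⟨_, hG y⟩
  · obtain ⟨y, rfl⟩ := hf z
    rw [hG, hx, hx, step]
  · obtain ⟨y, rfl⟩ := hf z
    rw [hx, hx, per]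
  · obtain ⟨y, rfl⟩ := hf z
    by_contra hc
    refine hz ?_
    rw [show N.mkQ y = 0 from (Submodule.Quotient.mk_eq_zero N).2 ((hm y).2 fun t => ?_), map_zero]
    by_contra h
    exact hc ⟨x' t, ⟨t, rfl⟩, by rwa [hx]⟩
  · obtain ⟨y, h1, h2⟩ := ind J hJ hw t ht
    exact ⟨e (N.mkQ y), by rwa [hx], fun s hs hst => by rw [hx]; exact h2 s hs hst⟩

theorem card_or {d p w : ℕ} (hw : 2 ≤ w) (o : Orb (Fin d → F) p w) : p ≤ 3 ^ d := by
  have : Finite (Dual F (Fin d → F)) := Module.finite_of_finite F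
  have h : Function.Injective fun t : Fin p => o.x t := fun s t hst => by
    by_contra hne
    have hne' : (s : ℕ) ≠ t := fun h => hne (Fin.ext h)
    obtain ⟨y, h1, h2⟩ := o.ind {(s : ℕ), (t : ℕ)} (by simp)
      ((Finset.card_le_two).trans hw) t (by simp)
    have h3 := h2 s (by simp) hne'
    rw [show o.x s = o.x t from hst, h1] at h3
    exact one_ne_zero h3
  have h1 := Nat.card_le_card_of_injective _ h
  rw [card_dual] at h1
  simpa using h1

theorem odd_or (r : ℕ) : 3 ^ r = 2 * ((3 ^ r - 1) / 2) + 1 := by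
  obtain ⟨a, ha⟩ : Odd (3 ^ r) := Odd.pow (by decide)
  omega

theorem gen_or (r : ℕ) (hr : r ≠ 0) : ∃ γ : GaloisField 3 r, γ ≠ 0 ∧
    γ ^ ((3 ^ r - 1) / 2) = 1 ∧ ∀ s < (3 ^ r - 1) / 2, ∀ t < (3 ^ r - 1) / 2,
      γ ^ s = γ ^ t → s = t := by
  obtain ⟨g, hg⟩ := IsCyclic.exists_ofOrder_eq_natCard (α := (GaloisField 3 r)ˣ)
  rw [Nat.card_units, GaloisField.card 3 r hr] at hg
  have h := odd_or r
  refine ⟨((g ^ 2 : (GaloisField 3 r)ˣ) : GaloisField 3 r), Units.ne_zero _, ?_,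
    fun s hs t ht hst => ?_⟩
  · rw [← Units.val_pow_eq_pow_val, ← pow_mul, show 2 * ((3 ^ r - 1) / 2) = orderOf g by omega,
      pow_orderOf_eq_one, Units.val_one]
  · rw [← Units.val_pow_eq_pow_val, ← Units.val_pow_eq_pow_val, ← pow_mul, ← pow_mul] at hst
    have := pow_injOn_Iio_orderOf (x := g) (show 2 * s ∈ Set.Iio _ by rw [Set.mem_Iio]; omega)
      (show 2 * t ∈ Set.Iio _ by rw [Set.mem_Iio]; omega) (Units.ext hst)
    omega

theorem exists_orb (r w : ℕ) (hr : 2 ≤ r) (hw : 2 ≤ w) :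
    ∃ d : ℕ, r ≤ d ∧ d ≤ w * r ∧ Nonempty (Orb (Fin d → F) ((3 ^ r - 1) / 2) w) := by
  classical
  have hr0 : r ≠ 0 := by omega
  obtain ⟨γ, h0, h1, hinj⟩ := gen_or r hr0
  obtain ⟨tr, htr⟩ := Module.Projective.exists_dual_eq_one F (one_ne_zero (α := GaloisField 3 r))
  obtain ⟨x, hx⟩ : ∃ x : ℕ → Dual F (Fin w → GaloisField 3 r),
      ∀ t P, x t P = tr (∑ i, P i * (γ ^ t) ^ (i : ℕ)) :=
    ⟨fun t => tr ∘ₗ ∑ i : Fin w, LinearMap.mulRight F ((γ ^ t) ^ (i : ℕ)) ∘ₗ LinearMap.proj i,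
      fun t P => by simp [LinearMap.sum_apply]⟩
  obtain ⟨G, hG⟩ : ∃ G : (Fin w → GaloisField 3 r) →ₗ[F] (Fin w → GaloisField 3 r),
      ∀ P i, G P i = P i * (γ ^ (i : ℕ))⁻¹ :=
    ⟨LinearMap.pi fun i => LinearMap.mulRight F (γ ^ (i : ℕ))⁻¹ ∘ₗ LinearMap.proj i,
      fun P i => by simp⟩
  have hlt : 3 ^ (r - 1) < (3 ^ r - 1) / 2 := by
    have e1 : 3 ^ r = 3 * 3 ^ (r - 1) := by rw [← pow_succ']; congr 1; omega
    have e2 : 3 ^ 1 ≤ 3 ^ (r - 1) := Nat.pow_le_pow_right (by norm_num) (by omega)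
    omega
  obtain ⟨d, hd, ⟨o⟩⟩ := quot_or (p := (3 ^ r - 1) / 2) (w := w)
    (Nat.succ_le_of_lt (Nat.zero_lt_of_lt hlt)) G x
    (fun P => ⟨fun i => P i * γ ^ (i : ℕ), funext fun i => by
      rw [hG, mul_inv_cancel_right₀ (pow_ne_zero _ h0)]⟩)
    (fun t P => by
      rw [hx, hx]
      refine congrArg tr (Finset.sum_congr rfl fun i _ => ?_)
      rw [hG, pow_succ', mul_pow, mul_assoc, inv_mul_cancel_left₀ (pow_ne_zero _ h0)])
    (fun t => LinearMap.ext fun P => by rw [hx, hx, pow_add, h1, mul_one])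
    (fun J hJ hc t ht => by
      have hv : Set.InjOn (fun s => γ ^ s) (J : Set ℕ) := fun a ha b hb hab =>
        hinj a (hJ a ha) b (hJ b hb) hab
      have hdeg : (Lagrange.basis J (fun s => γ ^ s) t).natDegree < w := by
        rw [Lagrange.natDegree_basis hv ht]; omega
      have hev : ∀ s, x s (fun i => (Lagrange.basis J (fun s => γ ^ s) t).coeff i) =
          tr ((Lagrange.basis J (fun s => γ ^ s) t).eval (γ ^ s)) := fun s => by
        rw [hx, Polynomial.eval_eq_sum_range' hdeg, ← Fin.sum_univ_eq_sum_range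
          (fun i => (Lagrange.basis J (fun s => γ ^ s) t).coeff i * (γ ^ s) ^ i) w]
      refine ⟨fun i => (Lagrange.basis J (fun s => γ ^ s) t).coeff i, ?_, fun s hs hst => ?_⟩
      · rw [hev, Lagrange.eval_basis_self hv ht, htr]
      · rw [hev, Lagrange.eval_basis_of_ne (v := fun s => γ ^ s) hst.symm hs, map_zero])
  refine ⟨d, ?_, hd.trans_eq ?_, ⟨o⟩⟩
  · have := (Nat.pow_lt_pow_iff_right (by norm_num)).1 (hlt.trans_le (card_or hw o))
    omega
  · rw [Module.finrank_pi_fintype]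
    simp [GaloisField.finrank 3 hr0]

theorem coprime_half (r : ℕ) : Nat.Coprime ((3 ^ r - 1) / 2) ((3 ^ (r + 1) - 1) / 2) := by
  have h := odd_or r
  have e : (3 ^ (r + 1) - 1) / 2 = 3 * ((3 ^ r - 1) / 2) + 1 := by rw [pow_succ]; omega
  rw [e]
  simp

end Pool.Agent.MP_45960e_lc.PR

end

section
namespace Pool.Agent.MP_45960e_lc.PR

open Module

variable {E E' : Type} [AddCommGroup E] [Module F E] [AddCommGroup E'] [Module F E']

theorem span_ea [Module.Finite F E] (S : Submodule F E) {u : ℕ} (h : finrank F S ≤ u) :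
    ∃ ts : Fin u → E, ∀ x ∈ S, ∃ c : Fin u → F, ∑ j, c j • ts j = x := by
  let b := Module.finBasis F S
  refine ⟨fun j => if hj : j.1 < finrank F S then (b ⟨j.1, hj⟩ : E) else 0, fun x hx => ?_⟩
  rw [← Submodule.mem_span_range_iff_exists_fun]
  have e := congrArg Subtype.val (b.sum_repr ⟨x, hx⟩)
  simp only [AddSubmonoidClass.coe_finsetSum, Submodule.coe_smul] at e
  rw [← e]
  exact Submodule.sum_mem _ fun i _ => Submodule.smul_mem _ _
    (Submodule.subset_span ⟨Fin.castLE h i, by simp⟩)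

theorem solve_ea {ι M : Type} [Fintype ι] [AddCommGroup M] [Module F M]
    (s : ι → M) (hs : LinearIndependent F s) (y : ι → E) :
    ∃ N : M →ₗ[F] E, ∀ e, N (s e) = y e := by
  classical
  obtain ⟨g, hg⟩ := (Fintype.linearCombination F s).exists_leftInverse_of_injective
    (LinearMap.ker_eq_bot.2 hs.fintypeLinearCombination_injective)
  refine ⟨Fintype.linearCombination F y ∘ₗ g, fun e => ?_⟩
  have h1 : g (s e) = Pi.single e 1 := by
    have := LinearMap.congr_fun hg (Pi.single e 1)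
    simpa using this
  rw [LinearMap.comp_apply, h1]
  simp

theorem exists_exp2 [Finite E] [Finite E'] (π : E →ₗ[F] E') (hπ : Function.Surjective π)
    (q u d : ℕ) (hc : Nat.card E ^ (2 * u) * 3 ^ ((d + 1) * (q * u + u)) <
      Nat.card E' ^ (d + 1)) : ∃ n : Fin q → E →ₗ[F] E, Exp2 π n u d := by
  classical
  have : Finite (E →ₗ[F] E) := Module.finite_of_finite F
  let P := (Fin u → E) × (Fin u → E) × (Fin (d + 1) → Fin q → Fin u → F) ×
    (Fin (d + 1) → Fin u → F)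
  let s : P → Fin (d + 1) → Fin q → E := fun p e σ => ∑ j, p.2.2.1 e σ j • p.1 j
  let L : P → (Fin q → E →ₗ[F] E) →+ (Fin (d + 1) → E') := fun p => AddMonoidHom.mk'
    (fun n e => π (∑ σ, n σ (s p e σ))) (by
      intro a b
      funext e
      simp only [Pi.add_apply, LinearMap.add_apply, Finset.sum_add_distrib, map_add])
  obtain ⟨n, hn⟩ := union_bound L (fun p e => π (∑ j, p.2.2.2 e j • p.2.1 j))
    (fun p => LinearIndependent F (s p))
    (by
      intro p hp y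
      choose y' hy' using fun e => hπ (y e)
      obtain ⟨N, hN⟩ := solve_ea (s p) hp y'
      refine ⟨fun σ => N ∘ₗ LinearMap.single F (fun _ => E) σ, ?_⟩
      funext e
      simp only [L, AddMonoidHom.mk'_apply, LinearMap.comp_apply, LinearMap.single_apply]
      rw [← map_sum, Finset.univ_sum_single, hN, hy'])
    (by
      refine lt_of_eq_of_lt ?_ (lt_of_lt_of_eq hc ?_)
      · simp only [P, Nat.card_prod, Nat.card_fun, Nat.card_fin, Nat.card_zmod]
        ring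
      · simp [Nat.card_fun])
  refine ⟨n, fun S S' hS hS' K hK => ?_⟩
  by_contra hlt
  obtain ⟨f, hf⟩ := exists_linearIndependent_of_le_finrank (Nat.succ_le_of_lt (not_le.1 hlt))
  have hf' := hf.map' _ (Submodule.ker_subtype _)
  obtain ⟨ts, hts⟩ := span_ea S hS
  obtain ⟨ts', hts'⟩ := span_ea S' hS'
  choose c hc using fun e σ => hts _ ((hK _ (f e).2).1 σ)
  choose a ha b hb hab using fun e => Submodule.mem_sup.1 (hK _ (f e).2).2
  choose l hl using fun e => hts' _ (ha e)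
  have e1 : s (ts, ts', c, l) = fun e => (f e).1 := funext fun e => funext fun σ => hc e σ
  refine hn (ts, ts', c, l) (by rw [e1]; exact hf') ?_
  funext e
  simp only [L, AddMonoidHom.mk'_apply, e1]
  rw [← hab e, hl e, map_add, LinearMap.mem_ker.1 (hb e), add_zero]

end Pool.Agent.MP_45960e_lc.PR

end

section
namespace Pool.Agent.MP_45960e_lc.PR

open Module

variable {D D' E E' : Type} [AddCommGroup D] [Module F D] [AddCommGroup D'] [Module F D']
  [AddCommGroup E] [Module F E] [AddCommGroup E'] [Module F E'] {q : ℕ}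
  [Module.Finite F D] [Module.Finite F D'] [Module.Finite F E]

theorem rn_eb {V W : Type} [AddCommGroup V] [Module F V] [AddCommGroup W] [Module F W]
    [Module.Finite F V] (f : V →ₗ[F] W) (K : Submodule F V) :
    finrank F (K.map f) + finrank F (K ⊓ LinearMap.ker f : Submodule F V) = finrank F K := by
  rw [← LinearMap.finrank_range_add_finrank_ker (f.domRestrict K), LinearMap.range_domRestrict,
    LinearMap.ker_domRestrict, ← Submodule.finrank_map_subtype_eq, Submodule.map_comap_subtype]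

theorem rank_eb {V W U : Type} [AddCommGroup V] [Module F V] [AddCommGroup W] [Module F W]
    [AddCommGroup U] [Module F U] [Module.Finite F V] (f : V →ₗ[F] W) (g : V →ₗ[F] U)
    (K : Submodule F V) :
    finrank F (K.map f) ≤ finrank F ((K ⊓ LinearMap.ker g).map f) + finrank F (K.map g) := by
  have h1 := rn_eb f K
  have h2 := rn_eb g K
  have h3 := rn_eb f (K ⊓ LinearMap.ker g)
  have h4 : finrank F (K ⊓ LinearMap.ker g ⊓ LinearMap.ker f : Submodule F V) ≤
      finrank F (K ⊓ LinearMap.ker f : Submodule F V) :=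
    Submodule.finrank_mono (inf_le_inf_right _ inf_le_left)
  omega

theorem ind_eb {V W ι : Type} [AddCommGroup V] [Module F V] [AddCommGroup W] [Module F W]
    [Module.Finite F V] (c : ι → V →ₗ[F] W) (Λ : Set ι) (φ : V →ₗ[F] F)
    (hφ : ∀ v, (∀ y ∈ Λ, c y v = 0) → φ v = 0) {q d : ℕ} (m : ℕ) (T : Submodule F V)
    (hT : finrank F T ≤ m) (K : Submodule F (Fin q → V)) (hK : ∀ s ∈ K, ∀ σ, s σ ∈ T)
    (hd : ∀ y ∈ Λ, finrank F (K.map ((c y).compLeft (Fin q))) ≤ d) :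
    finrank F (K.map (φ.compLeft (Fin q))) ≤ m * d := by
  induction m generalizing T K with
  | zero =>
    have h1 : T = ⊥ := Submodule.finrank_eq_zero.1 (Nat.le_zero.1 hT)
    have h2 : K = ⊥ := (Submodule.eq_bot_iff _).2 fun s hs => funext fun σ => by
      simpa [h1] using hK s hs σ
    simp [h2]
  | succ m ih =>
    by_cases h : ∀ y ∈ Λ, ∀ v ∈ T, c y v = 0
    · have h2 : K.map (φ.compLeft (Fin q)) = ⊥ := by
        rw [Submodule.eq_bot_iff]
        rintro _ ⟨s, hs, rfl⟩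
        exact funext fun σ => hφ _ fun y hy => h y hy _ (hK s hs σ)
      rw [h2, finrank_bot]
      exact Nat.zero_le _
    · push Not at h
      obtain ⟨y, hy, v, hv, h⟩ := h
      have h1 : finrank F (T ⊓ LinearMap.ker (c y) : Submodule F V) < finrank F T :=
        Submodule.finrank_lt_finrank_of_lt (lt_of_le_of_ne inf_le_left fun e => h (e.ge hv).2)
      have h2 := ih (T ⊓ LinearMap.ker (c y)) (by omega)
        (K ⊓ LinearMap.ker ((c y).compLeft (Fin q)))
        (fun s hs σ => ⟨hK s hs.1 σ, congrFun (LinearMap.mem_ker.1 hs.2) σ⟩) fun z hz =>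
          (Submodule.finrank_mono (Submodule.map_mono inf_le_left)).trans (hd z hz)
      have h3 := rank_eb (φ.compLeft (Fin q)) ((c y).compLeft (Fin q)) K
      have h4 := hd y hy
      rw [Nat.succ_mul]
      omega

/-- Maps whose values on the preimage of `Λ` are killed by `π`. -/
def Zs_eb (π : E →ₗ[F] E') (G : D →ₗ[F] D) (Λ : Set D) : Submodule F (D →ₗ[F] E) where
  carrier := {z | ∀ y, G y ∈ Λ → π (z y) = 0}
  add_mem' := fun ha hb y hy => by simp [ha y hy, hb y hy]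
  zero_mem' := fun y _ => by simp
  smul_mem' := fun c x hx y hy => by simp [hx y hy]

/-- The sum of the shifts. -/
def Sm_eb (G : D →ₗ[F] D) (n : Fin q → E →ₗ[F] E) : (Fin q → D →ₗ[F] E) →ₗ[F] (D →ₗ[F] E) :=
  ∑ σ, sh G (n σ) ∘ₗ LinearMap.proj σ

omit [Module.Finite F D] [Module.Finite F E] in
theorem Sm_apply_eb (G : D →ₗ[F] D) (n : Fin q → E →ₗ[F] E) (s : Fin q → D →ₗ[F] E) :
    Sm_eb G n s = ∑ σ, sh G (n σ) (s σ) := by
  simp [Sm_eb, LinearMap.sum_apply]

/-- The subspace that is factored out. -/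
def Qs_eb (π : E →ₗ[F] E') (n : Fin q → E →ₗ[F] E) (G : D →ₗ[F] D) (Λ : Set D)
    (S R : Submodule F (D →ₗ[F] E)) : Submodule F (D →ₗ[F] E) :=
  (Submodule.pi Set.univ fun _ => S).map (Sm_eb G n) ⊔ (R ⊔ Zs_eb π G Λ)

omit [Module.Finite F D] [Module.Finite F E] in
theorem Qs_spec_eb (π : E →ₗ[F] E') (n : Fin q → E →ₗ[F] E) (G : D →ₗ[F] D) (Λ : Set D)
    (S R : Submodule F (D →ₗ[F] E)) : ∀ z ∈ Qs_eb π n G Λ S R, ∃ s : Fin q → D →ₗ[F] E,
      (∀ σ, s σ ∈ S) ∧ ∃ r ∈ R, ∀ y, G y ∈ Λ → π ((z - ∑ σ, sh G (n σ) (s σ) - r) y) = 0 := by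
  intro z hz
  obtain ⟨_, ⟨s, hs, rfl⟩, w, hw, rfl⟩ := Submodule.mem_sup.1 hz
  obtain ⟨r, hr, v, hv, rfl⟩ := Submodule.mem_sup.1 hw
  refine ⟨s, fun σ => hs σ trivial, r, hr, fun y hy => ?_⟩
  rw [Sm_apply_eb, add_sub_cancel_left, add_sub_cancel_left]
  exact hv y hy

theorem Exp2.hom {π : E →ₗ[F] E'} {n : Fin q → E →ₗ[F] E} {u d k : ℕ} (h : Exp2 π n u d)
    (hk : k + 1 ≤ u) {G : D →ₗ[F] D} (hG : Function.Surjective G) (Λ : Set D)
    (S R Q : Submodule F (D →ₗ[F] E)) (hS : finrank F S ≤ k) (hR : finrank F R ≤ u)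
    (a : D →ₗ[F] E) (ha : ¬ ∃ a0 ∈ S, ∀ y ∈ Λ, a y = a0 y)
    (hQ : ∀ z ∈ Q, ∃ s : Fin q → D →ₗ[F] E, (∀ σ, s σ ∈ S) ∧ ∃ r ∈ R,
      ∀ y, G y ∈ Λ → π ((z - ∑ σ, sh G (n σ) (s σ) - r) y) = 0) :
    finrank F (LinearMap.ker (Q.mkQ ∘ₗ
      Fintype.linearCombination F fun σ => sh G (n σ) a)) ≤ (k + 1) * d := by
  have h1 : a ∉ S ⊔ Zs_eb (LinearMap.id : E →ₗ[F] E) LinearMap.id Λ := fun hm => by
    obtain ⟨a0, h0, v, hv, rfl⟩ := Submodule.mem_sup.1 hm
    exact ha ⟨a0, h0, fun y hy => by simpa using hv y hy⟩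
  obtain ⟨φ, φ0, φ1⟩ := LinearMap.exists_extend_of_notMem (V' := F) 0 h1 1
  have φ2 : ∀ v ∈ S ⊔ Zs_eb (LinearMap.id : E →ₗ[F] E) LinearMap.id Λ, φ v = 0 := fun v hv =>
    LinearMap.congr_fun φ0 ⟨v, hv⟩
  have hT : finrank F (S ⊔ Submodule.span F {a} : Submodule F (D →ₗ[F] E)) ≤ k + 1 := by
    refine (Submodule.finrank_add_le_finrank_add_finrank _ _).trans (add_le_add hS ?_)
    simpa using finrank_span_le_card (R := F) ({a} : Set (D →ₗ[F] E))
  refine le_trans (Submodule.finrank_mono ?_) (ind_eb (fun y => LinearMap.applyₗ y) Λ φ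
    (fun v hv => φ2 v (Submodule.mem_sup_right fun y hy => hv y hy)) (k + 1) _ hT
    ((Submodule.pi Set.univ fun _ => S ⊔ Submodule.span F {a}) ⊓
      (R ⊔ Zs_eb π G Λ).comap (Sm_eb G n)) (fun s hs σ => hs.1 σ trivial) fun y2 hy => ?_)
  · intro c hc
    rw [LinearMap.mem_ker, LinearMap.comp_apply, Submodule.mkQ_apply,
      Submodule.Quotient.mk_eq_zero, Fintype.linearCombination_apply] at hc
    obtain ⟨s, hs, r, hr, hz⟩ := hQ _ hc
    refine ⟨fun σ => c σ • a - s σ, ⟨fun σ _ => sub_mem (Submodule.mem_sup_right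
      (Submodule.smul_mem _ _ (Submodule.mem_span_singleton_self a)))
      (Submodule.mem_sup_left (hs σ)), ?_⟩, funext fun σ => ?_⟩
    · refine Submodule.mem_sup.2 ⟨r, hr, _, hz, ?_⟩
      simp [Sm_apply_eb, Finset.sum_sub_distrib]
    · show φ (c σ • a - s σ) = c σ
      rw [map_sub, map_smul, φ1, φ2 _ (Submodule.mem_sup_left (hs σ)), sub_zero, smul_eq_mul,
        mul_one]
  · obtain ⟨y, rfl⟩ := hG y2
    refine h ((S ⊔ Submodule.span F {a}).map (LinearMap.applyₗ (G y))) (R.map (LinearMap.applyₗ y))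
      ((Submodule.finrank_map_le _ _).trans (hT.trans hk))
      ((Submodule.finrank_map_le _ _).trans hR) _ ?_
    rintro _ ⟨s, ⟨h2, h3⟩, rfl⟩
    refine ⟨fun σ => ⟨s σ, h2 σ trivial, rfl⟩, ?_⟩
    obtain ⟨r, hr, v, hv, e⟩ := Submodule.mem_sup.1 h3
    refine Submodule.mem_sup.2 ⟨r y, ⟨r, hr, rfl⟩, v y, hv y hy, ?_⟩
    have := LinearMap.congr_fun e y
    rw [Sm_apply_eb, LinearMap.sum_apply] at this
    exact this

theorem Exp2.sep {π : E →ₗ[F] E'} {n : Fin q → E →ₗ[F] E} {u d k : ℕ} (h : Exp2 π n u d)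
    (hk : k + 1 ≤ u) (hq : 2 * ((k + 1) * d) < q) {G : D →ₗ[F] D} {H : D' →ₗ[F] D'}
    (hG : Function.Surjective G) (hH : Function.Surjective H) (Λ : Set D) (Λ' : Set D')
    (S R : Submodule F (D →ₗ[F] E)) (R' : Submodule F (D' →ₗ[F] E)) (hS : finrank F S ≤ k)
    (hR : finrank F R ≤ u) (hR' : finrank F R' ≤ u) (a : D →ₗ[F] E) (b : D' →ₗ[F] E)
    (ha : ¬ ∃ a0 ∈ S, ∀ y ∈ Λ, a y = a0 y) (hb : ¬ ∀ y ∈ Λ', b y = 0) :
    ∃ η : Bil (D →ₗ[F] E) (D' →ₗ[F] E), (∀ s ∈ S, ∀ σ, η (sh G (n σ) s) = 0) ∧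
      (∀ r ∈ R, η r = 0) ∧ (∀ z : D →ₗ[F] E, (∀ y, G y ∈ Λ → π (z y) = 0) → η z = 0) ∧
      (∀ z, ∀ r ∈ R', η z r = 0) ∧
      (∀ z, ∀ z' : D' →ₗ[F] E, (∀ y, H y ∈ Λ' → π (z' y) = 0) → η z z' = 0) ∧
      ∑ σ, η (sh G (n σ) a) (sh H (n σ) b) ≠ 0 := by
  have h1 := h.hom hk hG Λ S R _ hS hR a ha (Qs_spec_eb π n G Λ S R)
  have h2 := h.hom hk hH Λ' ⊥ R' _ (by simp) hR' b (by simpa using hb) (Qs_spec_eb π n H Λ' ⊥ R')
  rw [← lc_comp] at h1 h2
  have h3 := mt (orth _ _ h1 h2) (not_le.2 hq)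
  push Not at h3
  obtain ⟨η, hη⟩ := h3
  have k1 : ∀ z ∈ Qs_eb π n G Λ S R,
      η.compl₁₂ (Qs_eb π n G Λ S R).mkQ (Qs_eb π n H Λ' ⊥ R').mkQ z = 0 := fun z hz => by
    ext w
    simp [(Submodule.Quotient.mk_eq_zero _).2 hz]
  have k2 : ∀ z, ∀ w ∈ Qs_eb π n H Λ' ⊥ R',
      η.compl₁₂ (Qs_eb π n G Λ S R).mkQ (Qs_eb π n H Λ' ⊥ R').mkQ z w = 0 := fun z w hw => by
    simp [(Submodule.Quotient.mk_eq_zero _).2 hw]
  refine ⟨η.compl₁₂ (Qs_eb π n G Λ S R).mkQ (Qs_eb π n H Λ' ⊥ R').mkQ,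
    fun s hs σ => k1 _ (Submodule.mem_sup_left ⟨Pi.single σ s, fun τ _ => ?_, ?_⟩),
    fun r hr => k1 _ (Submodule.mem_sup_right (Submodule.mem_sup_left hr)),
    fun z hz => k1 _ (Submodule.mem_sup_right (Submodule.mem_sup_right hz)),
    fun z r hr => k2 _ _ (Submodule.mem_sup_right (Submodule.mem_sup_left hr)),
    fun z w hw => k2 _ _ (Submodule.mem_sup_right (Submodule.mem_sup_right hw)), hη⟩
  · by_cases e : τ = σ
    · subst e; simpa using hs
    · simp [Pi.single_eq_of_ne e]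
  · rw [Sm_apply_eb, Finset.sum_eq_single σ (fun τ _ e => by simp [Pi.single_eq_of_ne e])
      (by simp), Pi.single_eq_same]

end Pool.Agent.MP_45960e_lc.PR

end

section
namespace Pool.Agent.MP_45960e_lc.PR

open Module

theorem dual_ext {X : Type} [AddCommGroup X] [Module F X] [Module.Finite F X]
    (V : Submodule F X) (L : Submodule F (Dual F X)) (Y : X)
    (h : ∀ z ∈ L, (∀ η ∈ V, z η = 0) → z Y = 0) : ∃ η ∈ V, ∀ z ∈ L, z (Y + η) = 0 := by
  have h1 : Y ∈ L.dualCoannihilator ⊔ V := by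
    rw [← Subspace.forall_mem_dualAnnihilator_apply_eq_zero_iff]
    intro φ hφ
    rw [Submodule.dualAnnihilator_sup_eq, Subspace.dualCoannihilator_dualAnnihilator_eq] at hφ
    exact h φ hφ.1 fun η hη => (Submodule.mem_dualAnnihilator φ).1 hφ.2 η hη
  obtain ⟨y, hy, v, hv, rfl⟩ := Submodule.mem_sup.1 h1
  refine ⟨-v, V.neg_mem hv, fun z hz => ?_⟩
  rw [add_neg_cancel_right]
  exact (Submodule.mem_dualCoannihilator y).1 hy z hz

theorem dot_sa {T R C : Type} [Fintype T] [Fintype R] [Fintype C]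
    (Rm : (T → F) →ₗ[F] (R → F)) (Cm : (T → F) →ₗ[F] (C → F)) (κ : T → F) (hκ : ∀ t, κ t ≠ 0)
    (h : ∀ c, Rm c = 0 → ∀ c2, Cm c2 = 0 → ∑ t, c t * c2 t * κ t = 0) :
    Fintype.card T ≤ Fintype.card R + Fintype.card C := by
  classical
  let f : (T → F) →ₗ[F] Dual F (T → F) := LinearMap.mk₂ F (fun c c2 => ∑ t, c t * c2 t * κ t)
    (fun a b c => by simp [add_mul, Finset.sum_add_distrib])
    (fun a b c => by simp [Finset.mul_sum, mul_assoc])
    (fun a b c => by simp [add_mul, mul_add, Finset.sum_add_distrib])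
    (fun a b c => by simp [Finset.mul_sum, mul_assoc, mul_left_comm])
  have hf : Function.Injective f := (injective_iff_map_eq_zero f).2 fun c hc => by
    funext t
    have h1 : ∑ u, c u * (Pi.single t 1 : T → F) u * κ u = 0 :=
      LinearMap.congr_fun hc (Pi.single t 1)
    rw [Finset.sum_eq_single t (fun u _ hu => by simp [hu]) (by simp)] at h1
    simpa [hκ t] using h1
  have h1 : (LinearMap.ker Rm).map f ≤ (LinearMap.ker Cm).dualAnnihilator := by
    rintro _ ⟨c, hc, rfl⟩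
    exact (Submodule.mem_dualAnnihilator _).2 fun c2 hc2 => h c hc c2 hc2
  have h2 := Submodule.finrank_mono h1
  rw [← (Submodule.equivMapOfInjective f hf _).finrank_eq] at h2
  have h3 := Subspace.finrank_add_finrank_dualAnnihilator_eq (LinearMap.ker Cm)
  have h4 := LinearMap.finrank_range_add_finrank_ker Rm
  have h5 := LinearMap.finrank_range_add_finrank_ker Cm
  have h6 := Submodule.finrank_le (LinearMap.range Rm)
  have h7 := Submodule.finrank_le (LinearMap.range Cm)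
  rw [Module.finrank_fintype_fun_eq_card] at h3 h4 h5 h6 h7
  omega

variable {D D' E E' : Type} [AddCommGroup D] [Module F D] [AddCommGroup D'] [Module F D']
  [AddCommGroup E] [Module F E] [AddCommGroup E'] [Module F E'] {q : ℕ}
  [Module.Finite F D] [Module.Finite F D'] [Module.Finite F E]
  {p p' w : ℕ} (o : Orb D p w) (o' : Orb D' p' w) (π : E →ₗ[F] E') (n : Fin q → E →ₗ[F] E)

theorem supp_le {ι : Type} [Fintype ι] {L : ℕ} (hL : L < p) (hL' : L < p')
    (as rs : ι → D →ₗ[F] E) (bs : ι → D' →ₗ[F] E) (J : Finset ℕ) (hJ : ∀ t ∈ J, t < L)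
    (hw : J.card + 1 ≤ w) (z : Dual F (Bil (D →ₗ[F] E) (D' →ₗ[F] E))) (hz : z ∈ ZL E o o' J)
    (hV : ∀ η ∈ Van o π n L as rs bs, z η = 0) :
    ∃ J' ⊆ J, J'.card ≤ Fintype.card ι * (q + 3) ∧ z ∈ ZL E o o' J' := by
  classical
  obtain ⟨μ, rfl⟩ := (Submodule.mem_iSup_finset_iff_exists_sum _ _).1 hz
  choose s hs using fun t => (μ t).2
  let J2 := J.filter fun t => (μ t).1 ≠ 0
  have hsum : ∑ t ∈ J, (μ t).1 = ∑ t ∈ J2, (μ t).1 := (Finset.sum_filter_ne_zero J).symm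
  refine ⟨J2, Finset.filter_subset _ _, ?_, ?_⟩
  swap
  · rw [hsum]
    exact (Submodule.mem_iSup_finset_iff_exists_sum _ _).2 ⟨μ, rfl⟩
  have hJ2 : ∀ t : J2, t.1 ∈ J := fun t => (Finset.mem_filter.1 t.2).1
  have h1 : ∀ t : J2, ∃ φ ψ : Dual F E, s t (pu φ ψ) ≠ 0 := fun t => by
    by_contra hc
    push Not at hc
    refine (Finset.mem_filter.1 t.2).2 ?_
    have h0 : s t = 0 := LinearMap.ext fun a =>
      pu_induction (X := Set.univ) Submodule.span_univ (LinearMap.ker (s t))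
        (fun x _ e => hc x e) a
    rw [← hs, h0, map_zero]
  choose φ ψ hκ using h1
  choose lam hl1 hl0 using fun t : J2 => o.ind (insert L J) (fun u hu => by
    rcases Finset.mem_insert.1 hu with rfl | hu
    · exact hL
    · exact (hJ u hu).trans hL) ((Finset.card_insert_le _ _).trans hw) t
      (Finset.mem_insert_of_mem (hJ2 t))
  choose mu hm1 hm0 using fun t : J2 => o'.ind J (fun u hu => (hJ u hu).trans hL') (by omega) t
    (hJ2 t)
  let α : J2 → Dual F (D →ₗ[F] E) := fun t => φ t ∘ₗ LinearMap.applyₗ (lam t)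
  let β : J2 → Dual F (D' →ₗ[F] E) := fun t => ψ t ∘ₗ LinearMap.applyₗ (mu t)
  let row : ι × Option (Option (Fin q)) → D →ₗ[F] E := fun k =>
    k.2.elim (as k.1) fun j => j.elim (rs k.1) fun σ => sh o.G (n σ) (as k.1)
  have key := dot_sa (Matrix.toLin' (Matrix.of fun k u => α u (row k)))
    (Matrix.toLin' (Matrix.of fun i u => β u (bs i))) (fun t => s t (pu (φ t) (ψ t))) hκ ?_
  · simp only [Fintype.card_coe, Fintype.card_prod, Fintype.card_option, Fintype.card_fin] at key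
    refine key.trans_eq ?_
    ring
  intro c hc c2 hc2
  have hA : ∀ k, (∑ u, c u • α u) (row k) = 0 := fun k => by
    have := congrFun hc k
    simpa [Matrix.mulVec, dotProduct, mul_comm] using this
  have hB : ∀ i, (∑ u, c2 u • β u) (bs i) = 0 := fun i => by
    have := congrFun hc2 i
    simpa [Matrix.mulVec, dotProduct, mul_comm] using this
  have hA' : ∀ (t : J2) e, (∑ u, c u • α u) (pu (o.x t) e) = c t * φ t e := fun t e => by
    rw [LinearMap.sum_apply, Finset.sum_eq_single t (fun u _ hu => ?_) (by simp)]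
    · simp [α, pu_apply, hl1]
    · simp [α, pu_apply, hl0 u t (Finset.mem_insert_of_mem (hJ2 t))
        fun h => hu (Subtype.ext h.symm)]
  have hB' : ∀ (t : J2) e, (∑ u, c2 u • β u) (pu (o'.x t) e) = c2 t * ψ t e := fun t e => by
    rw [LinearMap.sum_apply, Finset.sum_eq_single t (fun u _ hu => ?_) (by simp)]
    · simp [β, pu_apply, hm1]
    · simp [β, pu_apply, hm0 u t (hJ2 t) fun h => hu (Subtype.ext h.symm)]
  have hL0 : ∀ e, (∑ u, c u • α u) (pu (o.x L) e) = 0 := fun e => by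
    rw [LinearMap.sum_apply]
    refine Finset.sum_eq_zero fun u _ => ?_
    simp [α, pu_apply, hl0 u L (Finset.mem_insert_self _ _) (hJ u (hJ2 u)).ne']
  generalize ∑ u, c u • α u = A at hA hA' hL0
  generalize ∑ u, c2 u • β u = B at hB hB'
  have hz0 : ∀ a, A a = 0 → pu A B a = 0 := fun a ha => by rw [pu_apply, ha, zero_smul]
  have h2 := hV (pu A B) ((mem_Van o π n L as rs bs _).2 ⟨fun i => hz0 _ (hA (i, none)),
    fun i σ => hz0 _ (hA (i, some (some σ))), fun i => hz0 _ (hA (i, some none)),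
    fun e _ => hz0 _ (hL0 e), fun i a => by simp [pu_apply, hB]⟩)
  rw [hsum, LinearMap.sum_apply, ← Finset.sum_coe_sort] at h2
  rw [← h2]
  refine Finset.sum_congr rfl fun t _ => ?_
  have e : res o o' t (pu A B) = (c t * c2 t) • pu (φ t) (ψ t) := by
    ext e e'
    simp only [res_apply, pu_apply, LinearMap.smul_apply, smul_eq_mul, hA', hB']
    ring
  rw [← hs, LinearMap.dualMap_apply, e, map_smul, smul_eq_mul]

end Pool.Agent.MP_45960e_lc.PR

end

section
namespace Pool.Agent.MP_45960e_lc.PR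

open Module

variable {D D' E E' : Type} [AddCommGroup D] [Module F D] [AddCommGroup D'] [Module F D']
  [AddCommGroup E] [Module F E] [AddCommGroup E'] [Module F E'] {q : ℕ}
  [Module.Finite F D] [Module.Finite F D'] [Module.Finite F E]
  {p p' w : ℕ} (o : Orb D p w) (o' : Orb D' p' w) (π : E →ₗ[F] E') (n : Fin q → E →ₗ[F] E)

/-- Evaluation of forms. -/
def ev_sb {A B : Type} [AddCommGroup A] [Module F A] [AddCommGroup B] [Module F B] (a : A) :
    B →ₗ[F] Dual F (Bil A B) :=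
  (LinearMap.applyₗ a : Bil A B →ₗ[F] B →ₗ[F] F).flip

/-- The defect of a form. -/
def Br_sb : Bil (D →ₗ[F] E) (D' →ₗ[F] E) →ₗ[F] Bil (D →ₗ[F] E) (D' →ₗ[F] E) where
  toFun Y := Y - ∑ σ, Y.compl₁₂ (sh o.G (n σ)) (sh o'.G (n σ))
  map_add' Y Z := by
    ext a b
    simp [Finset.sum_add_distrib]
    ring
  map_smul' c Y := by
    ext a b
    simp [Finset.mul_sum, mul_sub]

omit [Module.Finite F D] [Module.Finite F D'] [Module.Finite F E] in
theorem Br_apply_sb (Y : Bil (D →ₗ[F] E) (D' →ₗ[F] E)) (a : D →ₗ[F] E) (b : D' →ₗ[F] E) :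
    Br_sb o o' n Y a b = Y a b - ∑ σ, Y (sh o.G (n σ) a) (sh o'.G (n σ) b) := by
  simp [Br_sb]

omit [Module.Finite F D] [Module.Finite F D'] [Module.Finite F E] in
theorem kill_sb {J : Finset ℕ} {z : Dual F (Bil (D →ₗ[F] E) (D' →ₗ[F] E))}
    (hz : z ∈ ZL E o o' J) (η : Bil (D →ₗ[F] E) (D' →ₗ[F] E))
    (h : ∀ t ∈ J, res o o' t η = 0) : z η = 0 := by
  have h1 : ZL E o o' J ≤ LinearMap.ker (Dual.eval F _ η) := by
    refine iSup₂_le fun t ht => ?_
    rintro _ ⟨φ, rfl⟩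
    show φ (res o o' t η) = 0
    rw [h t ht, map_zero]
  exact h1 hz

omit [Module.Finite F D] [Module.Finite F D'] [Module.Finite F E] in
theorem mem_sb {J : Finset ℕ} {t : ℕ} (ht : t ∈ J) (e e' : E) :
    (res (E := E) o o' t).dualMap (ev_sb e e') ∈ ZL E o o' J :=
  Submodule.mem_iSup_of_mem t (Submodule.mem_iSup_of_mem ht ⟨_, rfl⟩)

omit [Module.Finite F D] [Module.Finite F D'] [Module.Finite F E] in
theorem mono_sb {J J' : Finset ℕ} (h : J ⊆ J') : ZL E o o' J ≤ ZL E o o' J' :=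
  biSup_mono fun _ ht => h ht

theorem claim_sb {u d k L : ℕ} (hn : Exp2 π n u d) (hu : 2 * k + 1 ≤ u)
    (hq : 2 * ((k + 1) * d) < q) (as rs : Fin k → D →ₗ[F] E) (bs : Fin k → D' →ₗ[F] E)
    (a : D →ₗ[F] E) (b : D' →ₗ[F] E) (J : Finset ℕ)
    (z : Dual F (Bil (D →ₗ[F] E) (D' →ₗ[F] E))) (hz : z ∈ ZL E o o' J)
    (h : ∀ η ∈ Van o π n L as rs bs,
      z η + (η a b - ∑ σ, η (sh o.G (n σ) a) (sh o'.G (n σ) b)) = 0)
    (JA JB : Finset ℕ) (hJ : ∀ t ∈ J, t ∈ JA ∨ t ∈ JB) :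
    (∃ a0 ∈ Submodule.span F (Set.range as),
      ∀ y ∈ {y | ∀ t ∈ JA, o.x (t + 1) y = 0}, a y = a0 y) ∨
      ∀ y ∈ {y | ∀ t ∈ JB, o'.x (t + 1) y = 0}, b y = 0 := by
  by_contra hc
  rw [not_or] at hc
  obtain ⟨η, h1, h2, h3, h4, h5, h6⟩ := hn.sep (k := k) (by omega) hq o.surj o'.surj _ _
    (Submodule.span F (Set.range as))
    (Submodule.span F (Set.range fun i : Option (Fin k ⊕ Fin k) => i.elim a (Sum.elim as rs)))
    (Submodule.span F (Set.range bs)) ((finrank_range_le_card as).trans (by simp))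
    ((finrank_range_le_card _).trans (by simp; omega))
    ((finrank_range_le_card bs).trans (by simp; omega)) a b hc.1 hc.2
  have h7 := h η ⟨fun i => h2 _ (Submodule.subset_span ⟨some (.inl i), rfl⟩),
    fun i σ => h1 _ (Submodule.subset_span ⟨i, rfl⟩) σ,
    fun i => h2 _ (Submodule.subset_span ⟨some (.inr i), rfl⟩),
    fun e he => h3 _ fun y _ => by rw [pu_apply, map_smul, he, smul_zero],
    fun i a => h4 a _ (Submodule.subset_span ⟨i, rfl⟩)⟩
  rw [h2 a (Submodule.subset_span ⟨none, rfl⟩), kill_sb o o' hz η fun t ht => ?_] at h7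
  · exact h6 (by simpa using h7)
  ext e e'
  rw [res_apply]
  rcases hJ t ht with ht | ht
  · rw [h3 _ fun y hy => by rw [pu_apply, ← o.step, hy t ht, zero_smul, map_zero]]
    rfl
  · exact h5 _ _ fun y hy => by rw [pu_apply, ← o'.step, hy t ht, zero_smul, map_zero]

theorem key {u d k W L l : ℕ} (hn : Exp2 π n u d) (hu : 2 * k + 1 ≤ u)
    (hq : 2 * ((k + 1) * d) < q) (hw : 2 * W + 1 ≤ w) (hL : L < p) (hL' : L < p')
    (hl : l + 1 ≤ L) (as rs : Fin k → D →ₗ[F] E) (bs : Fin k → D' →ₗ[F] E)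
    (Y : Bil (D →ₗ[F] E) (D' →ₗ[F] E)) (hg : ∀ i, Gd o o' n Y (as i))
    (hlow : Low o o' W (l + 1) (Van o π n L as rs bs) Y) (a : D →ₗ[F] E) (b : D' →ₗ[F] E)
    (J : Finset ℕ) (hJ : ∀ t ∈ J, t < l) (hc : J.card ≤ W)
    (z : Dual F (Bil (D →ₗ[F] E) (D' →ₗ[F] E))) (hz : z ∈ ZL E o o' J)
    (h : ∀ η ∈ Van o π n L as rs bs,
      z η + (η a b - ∑ σ, η (sh o.G (n σ) a) (sh o'.G (n σ) b)) = 0) :
    z Y + (Y a b - ∑ σ, Y (sh o.G (n σ) a) (sh o'.G (n σ) b)) = 0 := by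
  obtain ⟨ok, hY, hV, hok⟩ : ∃ ok : Bil (D →ₗ[F] E) (D' →ₗ[F] E) → Prop, ok Y ∧
      (∀ η ∈ Van o π n L as rs bs, ok η) ∧
      ∀ Z, ok Z → ∀ s ∈ Submodule.span F (Set.range as), Br_sb o o' n Z s = 0 := by
    refine ⟨fun Z => ∀ i, Br_sb o o' n Z (as i) = 0, fun i => ?_, fun η hη i => ?_,
      fun Z hZ => (Submodule.span_le (p := LinearMap.ker (Br_sb o o' n Z))).2 ?_⟩
    · ext b
      rw [Br_apply_sb, hg i b, sub_self, LinearMap.zero_apply]
    · ext b
      simp [Br_apply_sb, hη.1, hη.2.1]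
    · rintro _ ⟨i, rfl⟩
      exact hZ i
  suffices hs : ∃ z' ∈ ZL E o o' (J ∪ J.image Nat.succ), ∀ Z, ok Z → Br_sb o o' n Z a b = z' Z by
    obtain ⟨z', h1, h2⟩ := hs
    rw [← Br_apply_sb, h2 Y hY]
    refine hlow (J ∪ J.image Nat.succ) (fun t ht => ?_) ?_ (z + z')
      (add_mem (mono_sb o o' Finset.subset_union_left hz) h1) fun η hη => ?_
    · rcases Finset.mem_union.1 ht with ht | ht
      · exact (hJ t ht).trans (Nat.lt_succ_self l)
      · obtain ⟨s, hs, rfl⟩ := Finset.mem_image.1 ht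
        exact Nat.succ_lt_succ (hJ s hs)
    · have h3 := Finset.card_union_le J (J.image Nat.succ)
      have h4 := Finset.card_image_le (s := J) (f := Nat.succ)
      omega
    · rw [LinearMap.add_apply, ← h2 η (hV η hη), Br_apply_sb]
      exact h η hη
  have cl := claim_sb o o' π n hn hu hq as rs bs a b J z hz h
  rcases cl ∅ J (fun t ht => Or.inr ht) with ⟨a0, h1, h2⟩ | hb
  · obtain rfl : a = a0 := LinearMap.ext fun y => h2 y (by simp)
    exact ⟨0, zero_mem _, fun Z hZ => by rw [hok Z hZ a h1]; rfl⟩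
  have hμ : ∀ t, ∃ y, t ∈ J → o'.x (t + 1) y = 1 ∧ ∀ s ∈ J, s ≠ t → o'.x (s + 1) y = 0 := by
    intro t
    by_cases ht : t ∈ J
    · obtain ⟨y, h1, h2⟩ := o'.ind (J.image Nat.succ) (fun s hs => by
        obtain ⟨v, hv, rfl⟩ := Finset.mem_image.1 hs
        have := hJ v hv
        omega) (Finset.card_image_le.trans (by omega)) (t + 1) (Finset.mem_image_of_mem _ ht)
      exact ⟨y, fun _ => ⟨h1, fun s hs e => h2 _ (Finset.mem_image_of_mem _ hs) (by omega)⟩⟩
    · exact ⟨0, fun h => absurd h ht⟩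
  choose μ hμ using hμ
  have eb : b = ∑ t ∈ J, pu (o'.x (t + 1)) (b (μ t)) := by
    ext y
    have h1 := hb (y - ∑ t ∈ J, o'.x (t + 1) y • μ t) fun s hs => by
      rw [map_sub, map_sum, Finset.sum_eq_single s, map_smul, (hμ s hs).1, smul_eq_mul, mul_one,
        sub_self]
      · intro t ht e
        rw [map_smul, (hμ t ht).2 s hs e.symm, smul_zero]
      · exact fun h => absurd hs h
    rw [map_sub, sub_eq_zero, map_sum] at h1
    rw [h1, LinearMap.sum_apply]
    exact Finset.sum_congr rfl fun t _ => map_smul _ _ _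
  have hz' : ∀ t, ∃ z', t ∈ J → z' ∈ ZL E o o' (J ∪ J.image Nat.succ) ∧
      ∀ Z, ok Z → Br_sb o o' n Z a (pu (o'.x (t + 1)) (b (μ t))) = z' Z := by
    intro t
    by_cases ht : t ∈ J
    swap
    · exact ⟨0, fun h => absurd h ht⟩
    rcases cl {t} (J.erase t) (fun s hs => by
      by_cases e : s = t <;> simp [e, hs]) with ⟨a0, h1, h2⟩ | h1
    · obtain ⟨y, hy, -⟩ := o.ind {t + 1} (fun s hs => by
        have := hJ t ht
        rw [Finset.mem_singleton.1 hs]
        omega) (by rw [Finset.card_singleton]; omega) _ (Finset.mem_singleton_self _)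
      obtain ⟨e, he⟩ : ∃ e, a = a0 + pu (o.x (t + 1)) e := by
        refine ⟨a y - a0 y, LinearMap.ext fun v => ?_⟩
        have h3 := h2 (v - o.x (t + 1) v • y) (by simp [hy])
        rw [map_sub, map_sub, map_smul, map_smul, sub_eq_iff_eq_add] at h3
        rw [LinearMap.add_apply, pu_apply, h3, smul_sub]
        abel
      refine ⟨(res o o' (t + 1)).dualMap (ev_sb e (b (μ t))) -
        ∑ σ, (res o o' t).dualMap (ev_sb (n σ e) (n σ (b (μ t)))), fun _ => ⟨sub_mem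
          (mem_sb o o' (Finset.mem_union_right _ (Finset.mem_image_of_mem _ ht)) _ _)
          (sum_mem fun σ _ => mem_sb o o' (Finset.mem_union_left _ ht) _ _), fun Z hZ => ?_⟩⟩
      rw [he, map_add, hok Z hZ a0 h1, zero_add, Br_apply_sb, LinearMap.sub_apply,
        LinearMap.sum_apply]
      simp only [sh_pu]
      rfl
    · refine ⟨0, fun _ => ⟨zero_mem _, fun Z _ => ?_⟩⟩
      rw [h1 (μ t) fun s hs => (hμ t ht).2 s (Finset.mem_of_mem_erase hs)
        (Finset.ne_of_mem_erase hs), map_zero, map_zero]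
      rfl
  choose zt hzt using hz'
  refine ⟨∑ t ∈ J, zt t, sum_mem fun t ht => (hzt t ht).1, fun Z hZ => ?_⟩
  rw [eb, map_sum, LinearMap.sum_apply]
  exact Finset.sum_congr rfl fun t ht => (hzt t ht).2 Z hZ

theorem step {u d k W L l : ℕ} (hn : Exp2 π n u d) (hu : 2 * k + 1 ≤ u)
    (hq : 2 * ((k + 1) * d) < q) (hW : (k + 1) * (q + 3) ≤ W) (hw : 2 * W + 1 ≤ w)
    (hL : L < p) (hL' : L < p') (hl : l + 1 ≤ L) (as rs : Fin k → D →ₗ[F] E)
    (bs : Fin k → D' →ₗ[F] E) (Y : Bil (D →ₗ[F] E) (D' →ₗ[F] E))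
    (hg : ∀ i, Gd o o' n Y (as i)) (hlow : Low o o' W (l + 1) (Van o π n L as rs bs) Y)
    (a r : D →ₗ[F] E) (b : D' →ₗ[F] E) :
    ∃ η ∈ Van o π n L as rs bs, Gd o o' n (Y + η) a ∧
      Low o o' W l (Van o π n L (fun i : Option (Fin k) => i.elim a as)
        (fun i => i.elim r rs) (fun i => i.elim b bs)) (Y + η) := by
  have sup : ∀ J : Finset ℕ, (∀ t ∈ J, t < l) → J.card ≤ 2 * W → ∀ z ∈ ZL E o o' J,
      (∀ η ∈ Van o π n L (fun i : Option (Fin k) => i.elim a as) (fun i => i.elim r rs)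
        (fun i => i.elim b bs), z η = 0) →
      ∃ J' : Finset ℕ, (∀ t ∈ J', t < l) ∧ J'.card ≤ W ∧ z ∈ ZL E o o' J' := by
    intro J h1 h2 z h3 h4
    obtain ⟨J', h5, h6, h7⟩ := supp_le o o' π n hL hL' _ _ _ J
      (fun t ht => by have := h1 t ht; omega) (by omega) z h3 h4
    rw [Fintype.card_option, Fintype.card_fin] at h6
    exact ⟨J', fun t ht => h1 t (h5 ht), h6.trans hW, h7⟩
  let Zs : Submodule F (Dual F (Bil (D →ₗ[F] E) (D' →ₗ[F] E))) :=
    { carrier := {z | (∃ J : Finset ℕ, (∀ t ∈ J, t < l) ∧ J.card ≤ W ∧ z ∈ ZL E o o' J) ∧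
        ∀ η ∈ Van o π n L (fun i : Option (Fin k) => i.elim a as) (fun i => i.elim r rs)
          (fun i => i.elim b bs), z η = 0}
      add_mem' := by
        rintro x y ⟨⟨J, a1, a2, a3⟩, a4⟩ ⟨⟨J', b1, b2, b3⟩, b4⟩
        have c : ∀ η ∈ Van o π n L (fun i : Option (Fin k) => i.elim a as) (fun i => i.elim r rs)
            (fun i => i.elim b bs), (x + y) η = 0 := fun η hη => by
          rw [LinearMap.add_apply, a4 η hη, b4 η hη, add_zero]
        exact ⟨sup (J ∪ J') (fun t ht => (Finset.mem_union.1 ht).elim (a1 t) (b1 t))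
          ((Finset.card_union_le _ _).trans (by omega)) _
          (add_mem (mono_sb o o' Finset.subset_union_left a3)
            (mono_sb o o' Finset.subset_union_right b3)) c, c⟩
      zero_mem' := ⟨⟨∅, by simp, by simp, zero_mem _⟩, fun _ _ => rfl⟩
      smul_mem' := by
        rintro c x ⟨⟨J, a1, a2, a3⟩, a4⟩
        exact ⟨⟨J, a1, a2, Submodule.smul_mem _ c a3⟩, fun η hη => by
          rw [LinearMap.smul_apply, a4 η hη, smul_zero]⟩ }
  obtain ⟨η, h1, h2⟩ := dual_ext (Van o π n L as rs bs)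
    (Zs ⊔ LinearMap.range ((Br_sb o o' n).dualMap ∘ₗ ev_sb a)) Y (by
      intro z hz h
      obtain ⟨x, ⟨⟨J, a1, a2, a3⟩, -⟩, _, ⟨c, rfl⟩, rfl⟩ := Submodule.mem_sup.1 hz
      have := key o o' π n hn hu hq hw hL hL' hl as rs bs Y hg hlow a c J a1 a2 x a3 fun η hη => by
        rw [← Br_apply_sb]
        exact h η hη
      rwa [← Br_apply_sb] at this)
  refine ⟨η, h1, fun c => ?_, fun J a1 a2 z a3 a4 =>
    h2 z (Submodule.mem_sup_left ⟨sup J a1 a2 z a3 a4, a4⟩)⟩
  rw [← sub_eq_zero, ← Br_apply_sb]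
  exact h2 _ (Submodule.mem_sup_right ⟨c, rfl⟩)

end Pool.Agent.MP_45960e_lc.PR

end

section
/-!
Tensors of small rank and rank expansion.
-/

namespace Pool.Agent.MP_45960e_lc.PR

open Module

theorem orth' {ι X Y : Type} [Fintype ι] [AddCommGroup X] [Module F X] [AddCommGroup Y]
    [Module F Y] {D : ℕ} (x : ι → X) (y : ι → Y)
    (hx : finrank F (LinearMap.ker (Fintype.linearCombination F x)) ≤ D)
    (hy : finrank F (LinearMap.ker (Fintype.linearCombination F y)) ≤ D)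
    (h : ∀ η : X →ₗ[F] Y →ₗ[F] F, ∑ σ, η (x σ) (y σ) = 0) : Fintype.card ι ≤ 2 * D := by
  classical
  let yT := (LinearEquiv.piRing F F ι F).toLinearMap ∘ₗ (Fintype.linearCombination F y).dualMap
  have h1 : LinearMap.range yT ≤ LinearMap.ker (Fintype.linearCombination F x) := by
    rintro _ ⟨γ, rfl⟩
    rw [LinearMap.mem_ker, ← Module.forall_dual_apply_eq_zero_iff F]
    intro α
    have := h (α.smulRight γ)
    simpa [yT, Fintype.linearCombination_apply, mul_comm] using this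
  have h2 : finrank F (LinearMap.range yT) =
      finrank F (LinearMap.range (Fintype.linearCombination F y)) := by
    rw [LinearMap.range_comp, LinearEquiv.finrank_map_eq,
      LinearMap.finrank_range_dualMap_eq_finrank_range]
  have h3 := LinearMap.finrank_range_add_finrank_ker (Fintype.linearCombination F y)
  have h4 := Submodule.finrank_mono h1
  simp at h3
  omega

section
variable {A B X : Type} [AddCommGroup A] [Module F A] [AddCommGroup B] [Module F B]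
  [AddCommGroup X] [Module F X] {β : A →ₗ[F] B →ₗ[F] X} {r s : ℕ} {z z' : X}

variable (β r z) in
/-- `z` is a sum of `r` values of `β`. -/
def Rk : Prop := ∃ (a : Fin r → A) (b : Fin r → B), z = ∑ i, β (a i) (b i)

theorem Rk.add (h : Rk β r z) (h' : Rk β s z') : Rk β (r + s) (z + z') := by
  obtain ⟨a, b, rfl⟩ := h
  obtain ⟨a', b', rfl⟩ := h'
  exact ⟨Fin.append a a', Fin.append b b', by simp [Fin.sum_univ_add]⟩

theorem Rk.zero : Rk β r 0 := ⟨0, 0, by simp⟩

theorem Rk.mono (h : Rk β r z) (hs : r ≤ s) : Rk β s z := by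
  obtain ⟨t, rfl⟩ := Nat.exists_eq_add_of_le hs
  simpa using h.add (Rk.zero (r := t))

theorem Rk.smul (h : Rk β r z) (c : F) : Rk β r (c • z) := by
  obtain ⟨a, b, rfl⟩ := h
  exact ⟨fun i => c • a i, b, by simp [Finset.smul_sum]⟩

theorem Rk.flip (h : Rk β.flip r z) : Rk β r z := by
  obtain ⟨a, b, rfl⟩ := h
  exact ⟨b, a, rfl⟩

theorem Rk.red (a : Fin (r + 1) → A) (b : Fin (r + 1) → B) (h : ¬ LinearIndependent F a) :
    Rk β r (∑ i, β (a i) (b i)) := by
  obtain ⟨g, h1, i, hi⟩ := Fintype.not_linearIndependent_iff.1 h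
  rw [Fin.sum_univ_succAbove _ i] at h1
  have h2 : a i = ∑ j, (-(g i)⁻¹ * g (i.succAbove j)) • a (i.succAbove j) := by
    have h3 : a i = (g i)⁻¹ • (g i • a i) := by rw [smul_smul, inv_mul_cancel₀ hi, one_smul]
    rw [h3, eq_neg_of_add_eq_zero_left h1]
    simp [Finset.smul_sum, smul_smul]
  refine ⟨fun j => a (i.succAbove j),
    fun j => b (i.succAbove j) + (-(g i)⁻¹ * g (i.succAbove j)) • b i, ?_⟩
  rw [Fin.sum_univ_succAbove _ i, h2]
  simp only [map_add, map_smul, map_sum, LinearMap.sum_apply, LinearMap.smul_apply,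
    Finset.sum_add_distrib]
  rw [add_comm]

end

variable {E E' : Type} [AddCommGroup E] [Module F E] [AddCommGroup E'] [Module F E'] {q : ℕ}
  [Module.Finite F E]

variable (E) in
/-- Pure tensors as functionals on forms. -/
def ev : E →ₗ[F] E →ₗ[F] Dual F (Bil E E) :=
  LinearMap.mk₂ F (fun a b => LinearMap.applyₗ b ∘ₗ LinearMap.applyₗ a)
    (by intros; ext; simp) (by intros; ext; simp) (by intros; ext; simp) (by intros; ext; simp)

omit [Module.Finite F E] in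
theorem ev_apply (a b : E) (η : Bil E E) : ev E a b η = η a b := rfl

/-- The recursion operator on forms. -/
def TT (n : Fin q → E →ₗ[F] E) : Bil E E →ₗ[F] Bil E E where
  toFun Y := Y - ∑ σ, Y.compl₁₂ (n σ) (n σ)
  map_add' X Y := by
    ext a b
    simp [LinearMap.sum_apply, Finset.sum_add_distrib]
    ring
  map_smul' c X := by
    ext a b
    simp [LinearMap.sum_apply, Finset.mul_sum, mul_sub]

omit [Module.Finite F E] in
theorem TT_apply (n : Fin q → E →ₗ[F] E) (Y : Bil E E) (a b : E) :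
    TT n Y a b = Y a b - ∑ σ, Y (n σ a) (n σ b) := by
  simp [TT, LinearMap.sum_apply]

/-- Forms vanishing on given rows and columns. -/
def VS (π : E →ₗ[F] E') (Rw Cw : Submodule F E) : Submodule F (Bil E E) where
  carrier := {η | (∀ x ∈ Rw ⊔ LinearMap.ker π, η x = 0) ∧ ∀ x, ∀ y ∈ Cw, η x y = 0}
  add_mem' := by
    rintro x y ⟨a1, a2⟩ ⟨b1, b2⟩
    exact ⟨fun v hv => by simp [a1 v hv, b1 v hv], fun v w hw => by simp [a2 v w hw, b2 v w hw]⟩
  zero_mem' := ⟨fun _ _ => rfl, fun _ _ _ => rfl⟩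
  smul_mem' := by
    rintro c x ⟨a1, a2⟩
    exact ⟨fun v hv => by simp [a1 v hv], fun v w hw => by simp [a2 v w hw]⟩

omit [Module.Finite F E] in
theorem VS_anti (π : E →ₗ[F] E') {Rw Cw Rw' Cw' : Submodule F E} (h : Rw ≤ Rw') (h' : Cw ≤ Cw') :
    VS π Rw' Cw' ≤ VS π Rw Cw :=
  fun _ hη => ⟨fun x hx => hη.1 x (sup_le_sup_right h _ hx), fun x y hy => hη.2 x y (h' hy)⟩

variable {π : E →ₗ[F] E'} {n : Fin q → E →ₗ[F] E} {u d κ R : ℕ}

theorem Exp2.ker_le (h : Exp2 π n u d) {r : ℕ} (hr : r ≤ u) (a : Fin r → E)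
    (ha : LinearIndependent F a) (Rw : Submodule F E) (hR : finrank F Rw ≤ κ) :
    finrank F (LinearMap.ker (Fintype.linearCombination F fun x : Fin q × Fin r =>
      (Submodule.span F (Set.range a) ⊔ (Rw ⊔ LinearMap.ker π)).mkQ (n x.1 (a x.2)))) ≤
      d + κ := by
  let Ψ : (Fin q × Fin r → F) →ₗ[F] (Fin q → E) := LinearMap.pi fun σ =>
    Fintype.linearCombination F a ∘ₗ LinearMap.funLeft F F fun i => (σ, i)
  have hΨ : ∀ c σ, Ψ c σ = ∑ i, c (σ, i) • a i := fun c σ => rfl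
  have hinj : Function.Injective Ψ := by
    intro c c' e
    funext x
    exact congrFun (ha.fintypeLinearCombination_injective (congrFun e x.1)) x.2
  let nh : (Fin q → E) →ₗ[F] E := ∑ σ, n σ ∘ₗ LinearMap.proj σ
  have hnh : ∀ s, nh s = ∑ σ, n σ (s σ) := fun s => by simp [nh, LinearMap.sum_apply]
  let S := Submodule.span F (Set.range a)
  have hS : finrank F S ≤ u := (finrank_range_le_card a).trans (by simpa using hr)
  let g := (S ⊔ LinearMap.ker π).mkQ ∘ₗ nh ∘ₗ Ψ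
  set K := LinearMap.ker (Fintype.linearCombination F fun x : Fin q × Fin r =>
      (S ⊔ (Rw ⊔ LinearMap.ker π)).mkQ (n x.1 (a x.2)))
  have h1 := rn_eb g K
  have h2 : K.map g ≤ Rw.map (S ⊔ LinearMap.ker π).mkQ := by
    rintro _ ⟨c, hc, rfl⟩
    have h3 : nh (Ψ c) ∈ S ⊔ (Rw ⊔ LinearMap.ker π) := by
      rw [← Submodule.Quotient.mk_eq_zero, ← Submodule.mkQ_apply, ← LinearMap.mem_ker.1 hc, hnh,
        Fintype.linearCombination_apply, Fintype.sum_prod_type]
      simp only [hΨ, map_sum, map_smul]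
    rw [sup_left_comm] at h3
    obtain ⟨x, hx, y, hy, e⟩ := Submodule.mem_sup.1 h3
    refine ⟨x, hx, ?_⟩
    show _ = (S ⊔ LinearMap.ker π).mkQ (nh (Ψ c))
    rw [← e, map_add, Submodule.mkQ_apply _ y, (Submodule.Quotient.mk_eq_zero _).2 hy, add_zero]
  have h4 := (Submodule.finrank_mono h2).trans ((Submodule.finrank_map_le _ _).trans hR)
  have h5 := h S S hS hS ((K ⊓ LinearMap.ker g).map Ψ) (by
    rintro _ ⟨c, hc, rfl⟩
    refine ⟨fun σ => ?_, ?_⟩
    · rw [hΨ]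
      exact Submodule.sum_mem _ fun i _ =>
        Submodule.smul_mem _ _ (Submodule.subset_span ⟨i, rfl⟩)
    · rw [← hnh]
      exact (Submodule.Quotient.mk_eq_zero _).1 hc.2)
  rw [← (Submodule.equivMapOfInjective Ψ hinj _).finrank_eq] at h5
  omega

theorem Exp2.rk_le (h : Exp2 π n u d) (hu : R + R ≤ u) (hq : 2 * (d + κ) < q * (R + 1))
    {Rw Cw : Submodule F E} (hR : finrank F Rw ≤ κ) (hC : finrank F Cw ≤ κ)
    {z : Dual F (Bil E E)} (hz : ∀ η ∈ VS π Rw Cw, z (TT n η) = 0) :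
    ∀ r ≤ R + R, Rk (ev E) r z → Rk (ev E) R z := by
  intro r
  induction r with
  | zero => exact fun _ h0 => h0.mono (Nat.zero_le _)
  | succ r ih =>
    intro hr h0
    by_cases hrR : r + 1 ≤ R
    · exact h0.mono hrR
    obtain ⟨a, b, rfl⟩ := h0
    by_cases ha : LinearIndependent F a
    swap
    · exact ih (by omega) (Rk.red a b ha)
    by_cases hb : LinearIndependent F b
    swap
    · exact ih (by omega) (Rk.red (β := (ev E).flip) b a hb).flip
    exfalso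
    have h1 := orth' _ _ (h.ker_le (by omega) a ha Rw hR) (h.ker_le (by omega) b hb Cw hC) (by
      intro η
      have e1 : ∀ x ∈ Submodule.span F (Set.range a) ⊔ (Rw ⊔ LinearMap.ker π),
          (Submodule.span F (Set.range a) ⊔ (Rw ⊔ LinearMap.ker π)).mkQ x = 0 :=
        fun x hx => (Submodule.Quotient.mk_eq_zero _).2 hx
      have e2 : ∀ x ∈ Submodule.span F (Set.range b) ⊔ (Cw ⊔ LinearMap.ker π),
          (Submodule.span F (Set.range b) ⊔ (Cw ⊔ LinearMap.ker π)).mkQ x = 0 :=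
        fun x hx => (Submodule.Quotient.mk_eq_zero _).2 hx
      have h2 := hz (η.compl₁₂ (Submodule.mkQ _) (Submodule.mkQ _)) ⟨fun x hx => by
        ext y
        rw [LinearMap.compl₁₂_apply, e1 x (Submodule.mem_sup_right hx)]
        simp, fun x y hy => by
        rw [LinearMap.compl₁₂_apply, e2 y (Submodule.mem_sup_right (Submodule.mem_sup_left hy))]
        simp⟩
      have h3 : ∀ i, (Submodule.span F (Set.range a) ⊔ (Rw ⊔ LinearMap.ker π)).mkQ (a i) = 0 :=
        fun i => e1 _ (Submodule.mem_sup_left (Submodule.subset_span ⟨i, rfl⟩))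
      simp only [LinearMap.sum_apply, ev_apply, TT_apply, LinearMap.compl₁₂_apply, h3, map_zero,
        LinearMap.zero_apply, zero_sub, Finset.sum_neg_distrib, neg_eq_zero] at h2
      rw [Fintype.sum_prod_type_right]
      exact h2)
    have h3 : q * (R + 1) ≤ q * (r + 1) := Nat.mul_le_mul_left _ (by omega)
    simp only [Fintype.card_prod, Fintype.card_fin] at h1
    omega

theorem Exp2.exists_L (h : Exp2 π n u d) (hu : R + R ≤ u) (hq : 2 * (d + κ) < q * (R + 1))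
    {Rw Cw : Submodule F E} (hR : finrank F Rw ≤ κ) (hC : finrank F Cw ≤ κ) :
    ∃ L : Submodule F (Dual F (Bil E E)), ∀ z, z ∈ L ↔
      Rk (ev E) R z ∧ ∀ η ∈ VS π Rw Cw, z (TT n η) = 0 := by
  refine ⟨⟨⟨⟨{z | Rk (ev E) R z ∧ ∀ η ∈ VS π Rw Cw, z (TT n η) = 0}, ?_⟩,
    Rk.zero, fun _ _ => rfl⟩, ?_⟩, fun _ => Iff.rfl⟩
  · rintro x y ⟨a1, a2⟩ ⟨b1, b2⟩
    have h1 : ∀ η ∈ VS π Rw Cw, (x + y) (TT n η) = 0 := fun η hη => by
      rw [LinearMap.add_apply, a2 η hη, b2 η hη, add_zero]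
    exact ⟨h.rk_le hu hq hR hC h1 _ le_rfl (a1.add b1), h1⟩
  · rintro c x ⟨a1, a2⟩
    exact ⟨a1.smul c, fun η hη => by rw [LinearMap.smul_apply, a2 η hη, smul_zero]⟩

/-- The invariant of Duplicator. -/
def Ok (π : E →ₗ[F] E') (n : Fin q → E →ₗ[F] E) (R : ℕ) (Rw Cw : Submodule F E)
    (δ Y : Bil E E) : Prop :=
  ∀ z, Rk (ev E) R z → (∀ η ∈ VS π Rw Cw, z (TT n η) = 0) → z (TT n Y - δ) = 0

theorem Exp2.ok_step (h : Exp2 π n u d) (hu : R + R ≤ u) (hq : 2 * (d + κ) < q * (R + 1))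
    {Rw Cw Rw' Cw' : Submodule F E} (hR : finrank F Rw' ≤ κ) (hC : finrank F Cw' ≤ κ)
    {δ Y : Bil E E} (hY : Ok π n R Rw Cw δ Y) :
    ∃ η ∈ VS π Rw Cw, Ok π n R Rw' Cw' δ (Y + η) := by
  obtain ⟨L, hL⟩ := h.exists_L hu hq hR hC
  obtain ⟨_, ⟨η, hη, rfl⟩, h1⟩ := dual_ext ((VS π Rw Cw).map (TT n)) L (TT n Y - δ)
    fun z hz h2 => hY z ((hL z).1 hz).1 fun η hη => h2 _ ⟨η, hη, rfl⟩
  refine ⟨η, hη, fun z h2 h3 => ?_⟩
  rw [← h1 z ((hL z).2 ⟨h2, h3⟩), map_add]
  congr 1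
  abel

theorem card_co {X : Type} [AddCommGroup X] [Module F X] [Module.Finite F X]
    (L : Submodule F (Dual F X)) : ∃ x y : ℕ, Nat.card L = 3 ^ x ∧
      Nat.card L.dualCoannihilator = 3 ^ y ∧ x + y = finrank F X :=
  ⟨_, _, by rw [Module.natCard_eq_pow_finrank (K := F), Nat.card_zmod],
    by rw [Module.natCard_eq_pow_finrank (K := F), Nat.card_zmod],
    Subspace.finrank_add_finrank_dualCoannihilator_eq L⟩

theorem Exp2.exists_P (h : Exp2 π n u d) (hu : R + R ≤ u) (hq : 2 * d < q * (R + 1)) :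
    ∃ (P : Submodule F (Bil E E)) (y : ℕ), (∀ δ ∈ P, Ok π n R ⊥ ⊥ δ 0) ∧ Nat.card P = 3 ^ y ∧
      finrank F E * finrank F E ≤ y + finrank F E * (R + R) := by
  have : Finite E := Module.finite_of_finite F
  obtain ⟨L, hL⟩ := h.exists_L (κ := 0) hu hq (Rw := ⊥) (Cw := ⊥) (by simp) (by simp)
  obtain ⟨x, y, hx, hy, hP⟩ := card_co (X := Bil E E) L
  have hLc : x ≤ finrank F E * (R + R) := by
    choose a b hab using fun z : L => ((hL z).1 z.2).1
    have h1 : Function.Injective fun z => (a z, b z) := by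
      intro z z' h
      have e1 : a z = a z' := congrArg Prod.fst h
      have e2 : b z = b z' := congrArg Prod.snd h
      exact Subtype.ext (by rw [hab z, hab z', e1, e2])
    have h2 := hx.symm.trans_le (Nat.card_le_card_of_injective _ h1)
    rw [Nat.card_prod, Nat.card_fun, Module.natCard_eq_pow_finrank (K := F) (V := E),
      Nat.card_zmod, Nat.card_fin, ← pow_mul, ← pow_add] at h2
    have := (Nat.pow_le_pow_iff_right (by norm_num)).1 h2
    linarith
  have hB : finrank F (Bil E E) = finrank F E * finrank F E := by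
    rw [Module.finrank_linearMap, Module.finrank_linearMap, finrank_self, mul_one]
  have hP' : x + y = finrank F E * finrank F E := hP.trans hB
  refine ⟨L.dualCoannihilator, y, fun δ hδ z h1 h2 => ?_, hy, by omega⟩
  have e : TT n 0 - δ + δ = 0 := LinearMap.ext fun a => LinearMap.ext fun b => by simp
  have h3 := z.map_add (TT n 0 - δ) δ
  rw [e, map_zero, (Submodule.mem_dualCoannihilator _).1 hδ z ((hL z).2 ⟨h1, h2⟩),
    add_zero] at h3
  exact h3.symm

end Pool.Agent.MP_45960e_lc.PR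

end

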