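import Pool.Agent.MP_45960e_lc.Poly.Ch
import Pool.Agent.MP_45960e_lc.Poly.Lin

section
/-!
The cyclic recursion and the choice of parameters.
-/

namespace Pool.Agent.MP_45960e_lc.PR

open Module Function

set_option synthInstance.maxHeartbeats 40000
set_option maxHeartbeats 800000
set_option linter.unusedSectionVars false

section
variable {D D' U : Type} [AddCommGroup D] [Module F D] [AddCommGroup D'] [Module F D']
  [AddCommGroup U] [Module F U] [Module.Finite F D] [Module.Finite F D'] [Module.Finite F U]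
  {q p p' w : ℕ} (o : Orb D p w) (o' : Orb D' p' w) (n : Fin q → (U × U) →ₗ[F] (U × U))
  (L : ℕ) (y0 : D')

variable (D U) in
abbrev AA : Type := (D →ₗ[F] U × U) × (U × U) × U

def NN : Fin q ⊕ Bool → AA D U →ₗ[F] AA D U
  | Sum.inl σ => LinearMap.inl F _ _ ∘ₗ sh o.G (n σ) ∘ₗ LinearMap.fst F _ _
  | Sum.inr false => LinearMap.inl F _ _ ∘ₗ pu (o.x 0) ∘ₗ LinearMap.fst F _ _ ∘ₗ
      LinearMap.snd F _ _
  | Sum.inr true => LinearMap.inl F _ _ ∘ₗ pu (o.x L) ∘ₗ LinearMap.inl F U U ∘ₗ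
      LinearMap.snd F _ _ ∘ₗ LinearMap.snd F _ _

def MM : Fin q ⊕ Bool → (D' →ₗ[F] U × U) →ₗ[F] (D' →ₗ[F] U × U)
  | Sum.inl σ => sh o'.G (n σ)
  | Sum.inr false => pu (o'.x 0) ∘ₗ LinearMap.applyₗ y0
  | Sum.inr true => LinearMap.id

theorem NN_inl (σ : Fin q) (a : AA D U) : NN o n L (Sum.inl σ) a = (sh o.G (n σ) a.1, 0) := rfl
theorem NN_f (a : AA D U) : NN o n L (Sum.inr false) a = (pu (o.x 0) a.2.1, 0) := rfl
theorem NN_t (a : AA D U) : NN o n L (Sum.inr true) a = (pu (o.x L) (a.2.2, 0), 0) := rfl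
theorem MM_inl (σ : Fin q) (b : D' →ₗ[F] U × U) : MM o' n y0 (Sum.inl σ) b = sh o'.G (n σ) b :=
  rfl
theorem MM_f (b : D' →ₗ[F] U × U) : MM o' n y0 (Sum.inr false) b = pu (o'.x 0) (b y0) := rfl
theorem MM_t (b : D' →ₗ[F] U × U) : MM o' n y0 (Sum.inr true) b = b := rfl

variable [Nontrivial (D' →ₗ[F] U × U)]

/-- The cyclic recursion. -/
noncomputable def cyc : Ch (AA D U) (D' →ₗ[F] U × U) (Fin q ⊕ Bool) where
  N := NN o n L
  M := MM o' n y0
  T := LinearMap.ker (LinearMap.fst F _ _)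
  C := (exists_cyc _).choose
  hC := (exists_cyc _).choose_spec.1
  gen := (exists_cyc _).choose_spec.2
  b0 := (exists_ne (0 : D' →ₗ[F] U × U)).choose
  hb0 := (exists_ne (0 : D' →ₗ[F] U × U)).choose_spec

theorem cyc_cl (hy : o'.x 0 y0 = 1) (hp : Nat.Coprime p p') :
    (cyc o o' n L y0).Cl {a | a.2.2 = 0} := by
  refine ⟨{b | ∃ t e, b = pu (o'.x t) e}, ?_, ?_⟩
  · rw [eq_top_iff]
    intro b _
    refine pu_induction o'.span _ ?_ b
    rintro _ ⟨t, rfl⟩ e
    exact Submodule.subset_span ⟨t, e, rfl⟩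
  intro Dd hT hs hb
  have lev : ∀ t e e', ((pu (o.x t) e, 0) : AA D U) ∈ Dd (pu (o'.x t) e') := by
    intro t
    induction t with
    | zero =>
      intro e e'
      have h := hb (0, e, 0) rfl rfl (pu (o'.x 0) e') (Sum.inr false) (by
        rintro (σ | _ | _) hσ
        · exact (NN_inl o n L σ _).trans (by simp)
        · exact absurd rfl hσ
        · exact (NN_t o n L _).trans (by simp [Prod.mk_zero_zero]))
      change NN o n L _ _ ∈ Dd (MM o' n y0 _ _) at h
      rwa [NN_f, MM_f, pu_apply, hy, one_smul] at h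
    | succ t ih =>
      intro e e'
      refine hs _ rfl _ ?_
      rintro (σ | _ | _)
      · change NN o n L _ _ ∈ Dd (MM o' n y0 _ _)
        rw [NN_inl, MM_inl, sh_pu, sh_pu]
        exact ih _ _
      · exact hT _ (show (NN o n L _ _).1 = 0 by rw [NN_f]; simp)
      · exact hT _ (show (NN o n L _ _).1 = 0 by rw [NN_t]; simp [Prod.mk_zero_zero])
  rintro _ ⟨j, e', rfl⟩ a
  have h1 : a.1 ∈ (Dd (pu (o'.x j) e')).comap (LinearMap.inl F _ ((U × U) × U)) := by
    refine pu_induction o.span _ ?_ a.1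
    rintro _ ⟨i, rfl⟩ e
    obtain ⟨t, h1, h2⟩ := Nat.chineseRemainder hp i j
    have p1 : Periodic o.x p := o.per
    have p2 : Periodic o'.x p' := o'.per
    have e1 : o.x i = o.x t := by rw [← p1.map_mod_nat i, ← p1.map_mod_nat t, h1]
    have e2 : o'.x j = o'.x t := by rw [← p2.map_mod_nat j, ← p2.map_mod_nat t, h2]
    rw [e1, e2]
    exact lev t e e'
  have h2 : a = (a.1, 0) + (0, a.2) := by simp
  rw [h2]
  exact Submodule.add_mem _ h1 (hT _ (show _ = _ from rfl))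

/-- The twists. -/
def tw (d : U →ₗ[F] (D' →ₗ[F] U × U) →ₗ[F] F) : AA D U →ₗ[F] (D' →ₗ[F] U × U) →ₗ[F] F :=
  d ∘ₗ LinearMap.snd F _ _ ∘ₗ LinearMap.snd F _ _

theorem Low.mono {W l : ℕ} {V V' : Submodule F (Bil (D →ₗ[F] U × U) (D' →ₗ[F] U × U))}
    {Y : Bil (D →ₗ[F] U × U) (D' →ₗ[F] U × U)} (h : Low o o' W l V Y) (hV : V ≤ V') :
    Low o o' W l V' Y :=
  fun J h1 h2 z hz h3 => h J h1 h2 z hz fun η hη => h3 η (hV hη)

theorem cyc_not_wins {u d k W : ℕ} (hn : Exp2 (LinearMap.snd F U U) n u d) (hu : 2 * k + 1 ≤ u)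
    (hq : 2 * ((k + 1) * d) < q) (hW : (k + 1) * (q + 3) ≤ W) (hw : 2 * W + 1 ≤ w)
    (hL : L < p) (hL' : L < p') (hL1 : 1 ≤ L) (dd : U →ₗ[F] (D' →ₗ[F] U × U) →ₗ[F] F) :
    ¬ Wins (k := k) (G := (cyc o o' n L y0).G 0) (H := (cyc o o' n L y0).G (tw dd)) (L - 1)
      (fun _ => none) := by
  have hW1 : 1 ≤ W := le_trans (Nat.mul_pos (by omega) (by omega)) hW
  obtain ⟨yL, hyL, -⟩ := o.ind {L} (by simpa using hL) (by simp; omega) L (by simp)
  refine (cyc o o' n L y0).not_wins (δ := tw dd)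
    (fun l as bs Y => l + 1 ≤ L ∧
      (∀ u b, (Y.1 ∘ₗ LinearMap.inl F _ _) (pu (o.x L) (u, 0)) b = -dd u b) ∧
      (∀ i, Gd o o' n (Y.1 ∘ₗ LinearMap.inl F _ _) (as i).1) ∧
      Low o o' W (l + 1) (Van o (LinearMap.snd F U U) n L (fun i => (as i).1)
        (fun i => pu (o.x 0) (as i).2.1) bs) (Y.1 ∘ₗ LinearMap.inl F _ _)) ?_ ?_ _ _
    ⟨(-dd ∘ₗ LinearMap.fst F U U ∘ₗ LinearMap.applyₗ yL) ∘ₗ LinearMap.fst F _ _, ?_⟩
    ⟨by omega, ?_, ?_, ?_⟩ (by simp)
  · rintro l as bs Y ⟨-, h1, h2, h3⟩ i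
    refine LinearMap.ext fun b => ?_
    have e1 : Y.1 (as i) = Y.1 ((as i).1, 0) := by
      have h4 : as i = ((as i).1, 0) + (0, (as i).2) := by simp
      conv_lhs => rw [h4, map_add, Y.2 (0, (as i).2) rfl, add_zero]
    have e2 := h3 {0} (by simp) (by simp; omega)
      ((res o o' 0).dualMap (LinearMap.applyₗ (b y0) ∘ₗ LinearMap.applyₗ (as i).2.1))
      (Submodule.mem_iSup_of_mem 0 (Submodule.mem_iSup_of_mem (by simp) ⟨_, rfl⟩)) (by
        intro η hη
        show η (pu (o.x 0) (as i).2.1) (pu (o'.x 0) (b y0)) = 0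
        rw [hη.2.2.1 i]
        rfl)
    have e3 := h1 (as i).2.2 b
    have e4 := h2 i b
    rw [Ch.dft_apply, Fintype.sum_sum_type, Fintype.sum_bool, e1]
    change Y.1 _ _ = 0 at e2
    change Y.1 _ _ = _ at e3
    change Y.1 _ _ = ∑ σ, Y.1 _ _ at e4
    change _ - dd (as i).2.2 b - (∑ σ, Y.1 (sh o.G (n σ) (as i).1, 0) (sh o'.G (n σ) b) +
      (Y.1 (pu (o.x L) ((as i).2.2, 0), 0) b +
        Y.1 (pu (o.x 0) (as i).2.1, 0) (pu (o'.x 0) (b y0)))) = 0
    simp only [LinearMap.inl_apply] at e2 e3 e4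
    rw [e2, e3, e4]
    ring
  · rintro l as bs Y ⟨h0, h1, h2, h3⟩ i a b
    obtain ⟨η, hη, h4, h5⟩ := step o o' _ n hn hu hq hW hw hL hL' h0 _ _ _ _ h2 h3 a.1
      (pu (o.x 0) a.2.1) b
    obtain ⟨v1, v2, v3, v4, v5⟩ := (mem_Van _ _ _ _ _ _ _ _).1 hη
    have e : (Y.1 + η ∘ₗ LinearMap.fst F _ _) ∘ₗ LinearMap.inl F _ ((U × U) × U) =
        Y.1 ∘ₗ LinearMap.inl F _ _ + η := by
      rw [LinearMap.add_comp]
      rfl
    refine ⟨⟨Y.1 + η ∘ₗ LinearMap.fst F _ _, fun x hx => ?_⟩, ⟨by omega, ?_, ?_, ?_⟩, ?_, ?_⟩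
    · have hx' : x.1 = 0 := hx
      rw [LinearMap.add_apply, Y.2 x hx, zero_add, LinearMap.comp_apply, LinearMap.fst_apply, hx',
        map_zero]
    · intro u b'
      simp only [e]
      rw [LinearMap.add_apply, v4 (u, 0) rfl, add_zero, h1]
    · intro j
      simp only [e]
      by_cases hj : j = i
      · subst hj
        rw [update_self]
        exact h4
      · rw [update_of_ne hj]
        intro b'
        simp only [LinearMap.add_apply, v1 j, v2 j, add_zero]
        exact h2 j b'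
    · simp only [e]
      refine h5.mono o o' fun ζ hζ => ?_
      obtain ⟨z1, z2, z3, z4, z5⟩ := (mem_Van _ _ _ _ _ _ _ _).1 hζ
      refine (mem_Van _ _ _ _ _ _ _ _).2 ⟨fun j => ?_, fun j σ => ?_, fun j => ?_, z4,
        fun j x => ?_⟩ <;> by_cases hj : j = i
      · subst hj; rw [update_self]; exact z1 none
      · rw [update_of_ne hj]; exact z1 (some j)
      · subst hj; rw [update_self]; exact z2 none σ
      · rw [update_of_ne hj]; exact z2 (some j) σ
      · subst hj; rw [update_self]; exact z3 none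
      · rw [update_of_ne hj]; exact z3 (some j)
      · subst hj; rw [update_self]; exact z5 none x
      · rw [update_of_ne hj]; exact z5 (some j) x
    · intro j σ
      show Y.1 _ + η (NN o n L σ (as j)).1 = _
      rw [add_eq_left]
      rcases σ with σ | _ | _
      · exact v2 j σ
      · exact v3 j
      · exact v4 _ rfl
    · intro j x
      show Y.1 _ _ + η x.1 (bs j) = _
      rw [v5, add_zero]
  · intro x hx
    have hx' : x.1 = 0 := hx
    rw [LinearMap.comp_apply, LinearMap.fst_apply, hx', map_zero]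
  · intro u b
    show -dd (o.x L yL • ((u, 0) : U × U)).1 b = _
    rw [hyL, one_smul]
  · intro i b
    simp
  · intro J h1 h2 z hz h3
    obtain ⟨J', -, h4, h5⟩ := supp_le o o' (LinearMap.snd F U U) n hL hL' (ι := Empty)
      Empty.elim Empty.elim Empty.elim J (fun t ht => by have := h1 t ht; omega) (by omega) z hz
      fun η hη => h3 η ((mem_Van _ _ _ _ _ _ _ _).2
        ⟨fun _ => by simp, fun _ _ => by simp, fun _ => by simp, hη.2.2.2.1, fun _ _ => by simp⟩)
    have h6 : J' = ∅ := by simpa using h4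
    subst h6
    have h7 : z = 0 := by simpa [ZL] using h5
    rw [h7]
    rfl

end

theorem exists_group (k : ℕ) : ∃ c : ℕ, ∀ N : ℕ, ∃ (G : Type) (_ : Group G) (_ : Finite G),
    N ≤ Nat.card G ∧ (∃ r, Identifies 12 r G) ∧ ∃ R : ℕ, Nat.card G ≤ R ^ c ∧
      ∀ k' ≤ k, ∀ r, Identifies k' r G → R ≤ r := by
  obtain ⟨u, hu⟩ : ∃ u, u = 2 * k + 1 := ⟨_, rfl⟩
  obtain ⟨d, hd⟩ : ∃ d, d + 1 = 8 * u := ⟨8 * u - 1, by omega⟩
  obtain ⟨q, hq⟩ : ∃ q, q = 2 * ((k + 1) * d) + 1 := ⟨_, rfl⟩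
  obtain ⟨W, hW⟩ : ∃ W, W = (k + 1) * (q + 3) := ⟨_, rfl⟩
  obtain ⟨w, hw⟩ : ∃ w, w = 2 * W + 1 := ⟨_, rfl⟩
  obtain ⟨m, hm⟩ : ∃ m, m = 7 * (26 + 3 * q + 3 * w) + 2 * (u * (q + 1)) + 1 := ⟨_, rfl⟩
  have hW1 : 1 ≤ W := hW ▸ Nat.mul_pos (by omega) (by omega)
  have hm0 : 0 < m := by omega
  refine ⟨6 * (m * m * w), fun N => ?_⟩
  obtain ⟨n, hn⟩ := exists_exp2 (LinearMap.snd F (Fin m → F) (Fin m → F))
    Prod.snd_surjective q u d (by
      simp only [Nat.card_prod, Nat.card_fun, Nat.card_zmod, Nat.card_fin, ← pow_add, ← pow_mul]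
      refine Nat.pow_lt_pow_right (by norm_num) ?_
      have h1 : u * (2 * (u * (q + 1))) < u * m :=
        Nat.mul_lt_mul_of_pos_left (by omega) (by omega)
      rw [hd]
      nlinarith)
  obtain ⟨da, -, ha, ⟨o⟩⟩ := exists_orb (N + 2) w (by omega) (by omega)
  obtain ⟨db, hb1, hb2, ⟨o'⟩⟩ := exists_orb (N + 2 + 1) w (by omega) (by omega)
  obtain ⟨X, hX⟩ : ∃ X, X = 3 ^ (N + 1) := ⟨_, rfl⟩
  have hX3 : 3 ≤ X := by
    rw [hX, pow_succ]
    have := Nat.one_le_pow N 3 (by norm_num)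
    omega
  have e1 : 3 ^ (N + 2) = 3 * X := by rw [hX]; ring
  have e2 : 3 ^ (N + 2 + 1) = 9 * X := by rw [hX]; ring
  obtain ⟨y0, hy0, -⟩ := o'.ind {0} (by simp only [Finset.mem_singleton]; omega)
    (by simp; omega) 0 (by simp)
  have fB : finrank F ((Fin db → F) →ₗ[F] (Fin m → F) × (Fin m → F)) = 2 * (m * db) := by
    rw [Module.finrank_linearMap]
    simp
    ring
  have fA : finrank F (AA (Fin da → F) (Fin m → F)) = 2 * (m * da) + 3 * m := by
    simp only [Module.finrank_prod, Module.finrank_linearMap]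
    simp
    ring
  have hxb : 1 ≤ m * db := Nat.mul_pos hm0 (by omega)
  have : Nontrivial ((Fin db → F) →ₗ[F] (Fin m → F) × (Fin m → F)) :=
    Module.nontrivial_of_finrank_pos (R := F) (by omega)
  have : Finite ((Fin db → F) →ₗ[F] (Fin m → F) × (Fin m → F)) := Module.finite_of_finite F
  have : Finite (AA (Fin da → F) (Fin m → F)) := Module.finite_of_finite F
  let c := cyc o o' n ((3 * X - 1) / 2 - 1) y0
  have hcl : c.Cl {a | a.2.2 = 0} := cyc_cl o o' n _ y0 hy0 (coprime_half _)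
  have hb := fun δ => c.card_bounds δ _ _
    (by rw [Module.natCard_eq_pow_finrank (K := F), fA, Nat.card_zmod])
    (by rw [Module.natCard_eq_pow_finrank (K := F), fB, Nat.card_zmod])
  have hS : Fintype.card (Fin q ⊕ Bool) = q + 2 := by simp
  rw [hS] at hb
  have hexp : 7 * (11 + 2 * (q + 2) + 3 * (2 * (m * da) + 3 * m) + (3 + (q + 2)) * (2 * (m * db)))
      < m * (2 * (m * db)) := by
    have h1 : m * da ≤ w * (m * db) := by
      calc m * da ≤ m * (w * db) :=
            Nat.mul_le_mul_left _ (ha.trans (Nat.mul_le_mul_left _ (by omega)))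
        _ = _ := by ring
    have h2 : m ≤ m * db := Nat.le_mul_of_pos_right _ (by omega)
    obtain ⟨y, hy⟩ : ∃ y, y = m * db := ⟨_, rfl⟩
    rw [← hy] at h1 h2 hxb ⊢
    have h3 : (7 * (26 + 3 * q + 3 * w) + 1) * (2 * y) ≤ m * (2 * y) :=
      Nat.mul_le_mul_right _ (by omega)
    have h4 : q ≤ q * y := Nat.le_mul_of_pos_right _ hxb
    nlinarith
  have hfin := c.finite_G
  have : Finite (((Fin db → F) →ₗ[F] (Fin m → F) × (Fin m → F)) →ₗ[F] F) :=
    Module.finite_of_finite F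
  have : Finite ((Fin m → F) →ₗ[F] ((Fin db → F) →ₗ[F] (Fin m → F) × (Fin m → F)) →ₗ[F] F) :=
    Module.finite_of_finite F
  obtain ⟨dd, hdd⟩ := c.exists_twist hcl tw (by
      intro x y h
      refine LinearMap.ext fun z => ?_
      exact LinearMap.congr_fun h (0, 0, z)) (by
      intro x a ha
      have ha' : a.2.2 = 0 := ha
      show x a.2.2 = 0
      rw [ha', map_zero]) (by
      refine lt_of_le_of_lt (Nat.pow_le_pow_left (hb 0).2 7) ?_
      rw [Module.natCard_eq_pow_finrank (K := F), Nat.card_zmod, Module.finrank_linearMap,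
        Module.finrank_linearMap, fB, ← pow_mul]
      refine Nat.pow_lt_pow_right (by norm_num) ?_
      simp only [finrank_fintype_fun_eq_card, Fintype.card_fin, finrank_self, mul_one]
      omega)
  refine ⟨c.G 0, inferInstance, inferInstance, le_trans ?_ (hb 0).1,
    identifies_of_rigid (by simp) (c.rigid hcl (δ := 0) (fun _ _ => rfl)), X,
    (hb 0).2.trans ?_, fun k' hk r hr => ?_⟩
  · have h1 : db ≤ m * db := Nat.le_mul_of_pos_left _ hm0
    have h2 : 2 * (m * db) < 3 ^ (2 * (m * db)) := Nat.lt_pow_self (by norm_num)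
    omega
  · rw [hX, ← pow_mul]
    refine Nat.pow_le_pow_right (by norm_num) ?_
    have h1 : m * (2 * (m * db)) ≤ m * (2 * (m * (w * (N + 2 + 1)))) := by gcongr
    have h2 : m * (2 * (m * (w * (N + 2 + 1)))) ≤ (N + 1) * (6 * (m * m * w)) := by
      nlinarith [Nat.zero_le (m * m * w * N)]
    omega
  · have hw' := hr (c.G (tw dd)) (by rw [Grp.card_eq, Grp.card_eq]) hdd
    have hnw := cyc_not_wins o o' n ((3 * X - 1) / 2 - 1) y0 (k := k') hn (by omega)
      (by have := Nat.mul_le_mul_right d (Nat.add_le_add_right hk 1); omega)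
      ((Nat.mul_le_mul_right _ (Nat.add_le_add_right hk 1)).trans hW.ge) hw.ge
      (by omega) (by omega) (by omega) dd
    by_contra h
    exact hnw (wins_mono (by omega) _ hw')

end Pool.Agent.MP_45960e_lc.PR

end

section
/-!
Groups that Spoiler never separates.
-/

namespace Pool.Agent.MP_45960e_lc.PR

open Module Grp Function

set_option synthInstance.maxHeartbeats 40000
set_option maxHeartbeats 800000
set_option linter.unusedSectionVars false

section
variable {V W Z : Type} [AddCommGroup V] [Module F V] [AddCommGroup W] [Module F W]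
  [AddCommGroup Z] [Module F Z] {β : V →ₗ[F] W →ₗ[F] Z}

theorem iV_inj {v v' : V} (h : iV β v = iV β v') : v = v' := congrArg Grp.v h

theorem iW_inj {w w' : W} (h : iW β w = iW β w') : w = w' := congrArg Grp.w h

theorem iW_add (x y : W) : iW β (x + y) = iW β y * iW β x := by
  ext <;> simp [iW]

end

namespace Ch
variable {A B S : Type} [AddCommGroup A] [Module F A] [AddCommGroup B] [Module F B] [Fintype S]
  (c : Ch A B S)

theorem lin_iso {δ δ' : A →ₗ[F] B →ₗ[F] F} (fV : VV A B S → VV A B S)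
    (fW : WW B c.T → WW B c.T) (hβ : ∀ v w, c.beta δ v w = c.beta δ' (fV v) (fW w))
    (hadd : ∀ w w', fW (w + w') = fW w + fW w')
    (c1 : fW (0, 0, 1, 0) = (0, 0, 1, 0)) (c2 : fW (c.b0, 0, 0, 0) = (c.b0, 0, 0, 0))
    (c3 : fV (0, 0, 1) = (0, 0, 1)) (c4 : fV ((1, 0, 0), 0, 0) = ((1, 0, 0), 0, 0)) :
    ∃ Y : c.YY, c.dft (δ' - δ) Y.1 = 0 := by
  have dV : ∀ v, (fV v).1 = v.1 ∧ (fV v).2.2 = v.2.2 := by
    intro v
    have h1 := hβ v (0, 0, 1, 0)
    have h2 := hβ v (c.b0, 0, 0, 0)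
    rw [c1] at h1
    rw [c2] at h2
    refine ⟨by simpa [beta_e] using h1.symm, ?_⟩
    have := congrArg (fun z : ZZ A B S => z.2.2.2.1) h2
    simp only [beta_apply, zero_smul, zero_add] at this
    exact (smul_left_injective F c.hb0 this).symm
  have dW : ∀ w, (fW w).1 = w.1 ∧ (fW w).2.2 = w.2.2 := by
    intro w
    have e1 := hβ (0, 0, 1) w
    have e2 := hβ ((1, 0, 0), 0, 0) w
    rw [c3] at e1
    rw [c4] at e2
    have h1 := congrArg (fun z : ZZ A B S => z.2.2.2.1) e1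
    have h2 := congrArg (fun z : ZZ A B S => z.1) e2
    have h3 := congrArg (fun z : ZZ A B S => z.2.1) e2
    simp [beta_apply, c.hC] at h1 h2 h3
    exact ⟨h1.symm, Prod.ext h2.symm h3.symm⟩
  have rel : ∀ v w, c.col δ v w = c.col δ' (fV v) (fW w) := by
    intro v w
    have h := hβ v w
    rw [beta_apply, beta_apply, (dV v).1, (dV v).2, (dW w).1, (dW w).2] at h
    exact congrArg (fun z : ZZ A B S => z.2.2.2.2) (add_left_cancel h)
  let Q : B →+ Dual F A := AddMonoidHom.mk' (fun b => (fW (b, 0, 0, 0)).2.1.1) (by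
    intro b b'
    have : ((b + b', 0, 0, 0) : WW B c.T) = (b, 0, 0, 0) + (b', 0, 0, 0) := by simp
    rw [this, hadd]
    rfl)
  refine ⟨⟨(Q.toZModLinearMap 3).flip, fun a ha => LinearMap.ext fun b =>
    (Submodule.mem_dualAnnihilator _).1 (fW (b, 0, 0, 0)).2.1.2 a ha⟩, ?_⟩
  refine LinearMap.ext fun a => LinearMap.ext fun b => ?_
  have h1 := congrFun (rel ((0, 0, (a, 0, 0)), 0, 0) (b, 0, 0, 0)) none
  have h2 := fun σ => congrFun (rel ((0, 0, (a, 0, 0)), 0, 0) (c.M σ b, 0, 0, 0)) (some σ)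
  simp only [col, (dV _).1, (dW _).1] at h1 h2
  rw [dft_apply]
  change (fW (b, 0, 0, 0)).2.1.1 a - (δ' a b - δ a b) -
    ∑ σ, (fW (c.M σ b, 0, 0, 0)).2.1.1 (c.N σ a) = 0
  have h3 : ∑ σ, (fW (c.M σ b, 0, 0, 0)).2.1.1 (c.N σ a) =
      ∑ σ, (fV ((0, 0, (a, 0, 0)), 0, 0)).2.1 σ (c.M σ b) :=
    Finset.sum_congr rfl fun σ _ => by
      have := h2 σ
      simp only [Pi.zero_apply, LinearMap.zero_apply, ZeroMemClass.coe_zero, sub_zero] at this
      linear_combination this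
  simp only [Pi.zero_apply, LinearMap.zero_apply, ZeroMemClass.coe_zero, sub_zero,
    Finset.sum_const_zero, zero_add] at h1
  rw [h3]
  linear_combination h1

theorem grp_iso {δ δ' : A →ₗ[F] B →ₗ[F] F} (ψ : c.G δ ≃* c.G δ')
    (hψ : ∀ i, ψ (c.cst δ i) = c.cst δ' i) : ∃ Y : c.YY, c.dft (δ' - δ) Y.1 = 0 := by
  let Bf := BF.ofIso ψ 12
  obtain ⟨cs, hcs⟩ : ∃ cs, cs = List.ofFn fun i => (c.cst δ i, c.cst δ' i) := ⟨_, rfl⟩
  have hE : Bf.E cs := by
    intro x hx
    obtain ⟨i, rfl⟩ := List.mem_ofFn.1 (hcs ▸ hx)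
    exact (hψ i).symm
  have hm : ∀ i, (c.cst δ i, c.cst δ' i) ∈ cs := fun i => hcs ▸ List.mem_ofFn.2 ⟨i, rfl⟩
  have hlen : cs.length = 7 := by rw [hcs]; simp
  have m0 : (tor _ (-1) 1, tor _ (-1) 1) ∈ cs := hm 0
  have m1 : (tor _ 1 (-1), tor _ 1 (-1)) ∈ cs := hm 1
  have m2 : (iW _ (0, 0, 1, 0), iW _ (0, 0, 1, 0)) ∈ cs := hm 2
  have m3 : (iW _ (0, 0, 0, 1), iW _ (0, 0, 0, 1)) ∈ cs := hm 3
  have m4 : (iW _ (c.b0, 0, 0, 0), iW _ (c.b0, 0, 0, 0)) ∈ cs := hm 4
  have m5 : (iV _ (0, 0, 1), iV _ (0, 0, 1)) ∈ cs := hm 5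
  have m6 : (iV _ ((1, 0, 0), 0, 0), iV _ ((1, 0, 0), 0, 0)) ∈ cs := hm 6
  have hZ := Bf.fixZ (by omega) m0 m1 Prod.fst c.C m2 m3 m6 Prod.fst_surjective
    (c.beta_e δ) (c.beta_e δ') (c.beta_e' δ) (c.beta_e' δ') c.gen
  choose fV hV using fun v => Bf.forthV hE (by omega) m1 v
  choose fW hW using fun w => Bf.forthW hE (by omega) m0 w
  have eV : ∀ v, iV _ (fV v) = ψ (iV _ v) := fun v => hV v _ List.mem_cons_self
  have eW : ∀ w, iW _ (fW w) = ψ (iW _ w) := fun w => hW w _ List.mem_cons_self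
  refine c.lin_iso fV fW (fun v w => (hZ _ _ ?_).symm) (fun w w' => iW_inj (β := c.beta δ') ?_)
    (iW_inj ((eW _).trans (hE _ m2).symm)) (iW_inj ((eW _).trans (hE _ m4).symm))
    (iV_inj ((eV _).trans (hE _ m5).symm)) (iV_inj ((eV _).trans (hE _ m6).symm))
  · intro x hx
    rcases List.mem_cons.1 hx with rfl | hx
    · show iZ _ _ = ψ (iZ _ _)
      rw [← comm_eq, ← comm_eq, eV, eW]
      simp only [map_mul, map_inv]
    · exact hE x hx
  · rw [eW, iW_add, iW_add, map_mul, eW, eW]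

theorem exists_twist' [Finite A] [Finite B] (P : Submodule F (A →ₗ[F] B →ₗ[F] F))
    (hcard : Nat.card (c.G 0) ^ 7 * Nat.card c.YY < Nat.card P) :
    ∃ δ ∈ P, IsEmpty (c.G 0 ≃* c.G δ) := by
  by_contra hne
  have hex : ∀ p : P, Nonempty (c.G 0 ≃* c.G p.1) := by
    intro p
    by_contra h
    exact hne ⟨p.1, p.2, not_nonempty_iff.1 h⟩
  have := c.finite_G
  have : Finite (B →ₗ[F] F) := Module.finite_of_finite F
  have : Finite (A →ₗ[F] B →ₗ[F] F) := Module.finite_of_finite F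
  let φ := fun p => (hex p).some
  let κ := fun p => fun i : Fin 7 => (φ p).symm (c.cst p.1 i)
  have : Nonempty P := ⟨0⟩
  have h1 : ∀ p, ∃ Y : c.YY, c.dft (p.1 - (invFun κ (κ p)).1) Y.1 = 0 := by
    intro p
    refine c.grp_iso ((φ (invFun κ (κ p))).symm.trans (φ p)) fun i => ?_
    have : (φ (invFun κ (κ p))).symm (c.cst (invFun κ (κ p)).1 i) = (φ p).symm (c.cst p.1 i) :=
      congrFun (invFun_eq (f := κ) ⟨p, rfl⟩) i
    rw [MulEquiv.trans_apply, this, MulEquiv.apply_symm_apply]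
  choose Y hY using h1
  have hinj : Injective fun p => (κ p, Y p) := by
    intro p p' h
    have e1 : κ p = κ p' := congrArg Prod.fst h
    have e2 : Y p = Y p' := congrArg Prod.snd h
    have a1 := hY p
    have a2 := hY p'
    rw [e1, e2] at a1
    refine Subtype.ext (LinearMap.ext fun a => LinearMap.ext fun b => ?_)
    have b1 := LinearMap.congr_fun₂ (a1.trans a2.symm) a b
    simp only [dft_apply, LinearMap.sub_apply] at b1
    linear_combination -b1
  have := Nat.card_le_card_of_injective _ hinj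
  rw [Nat.card_prod, Nat.card_fun, Nat.card_fin] at this
  omega

end Ch

section
variable {U : Type} [AddCommGroup U] [Module F U] [Module.Finite F U] [Nontrivial U] {q : ℕ}
  (n : Fin q → (U × U) →ₗ[F] (U × U))

/-- The recursion without levels. -/
noncomputable def flat : Ch (U × U) (U × U) (Fin q) where
  N := n
  M := n
  T := LinearMap.ker (LinearMap.snd F U U)
  C := (exists_cyc _).choose
  hC := (exists_cyc _).choose_spec.1
  gen := (exists_cyc _).choose_spec.2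
  b0 := (exists_ne (0 : U × U)).choose
  hb0 := (exists_ne (0 : U × U)).choose_spec

theorem card_YY : Nat.card (flat n).YY ≤ 3 ^ (finrank F U * finrank F (U × U)) := by
  have : Finite (U →ₗ[F] (U × U) →ₗ[F] F) := Module.finite_of_finite F
  have h1 := Nat.card_le_card_of_injective
    (fun Y : (flat n).YY => Y.1 ∘ₗ LinearMap.inr F U U) (by
      intro Y Y' h
      refine Subtype.ext (LinearMap.ext fun x => ?_)
      have e : x = (x.1, 0) + (0, x.2) := by simp
      have h2 : Y.1 (0, x.2) = Y'.1 (0, x.2) := LinearMap.congr_fun h x.2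
      rw [e, map_add, map_add, Y.2 (x.1, 0) rfl, Y'.2 (x.1, 0) rfl, h2])
  rwa [Module.natCard_eq_pow_finrank (K := F) (V := U →ₗ[F] (U × U) →ₗ[F] F), Nat.card_zmod,
    Module.finrank_linearMap, Module.finrank_linearMap, finrank_self, mul_one] at h1

/-- The rows seen from the pebbles. -/
def rows {ι : Type} (as : ι → U × U) : Submodule F (U × U) :=
  Submodule.span F (Set.range fun x : Option (Fin q) × ι => x.1.elim (as x.2) fun σ => n σ (as x.2))

theorem rows_mono {ι κ : Type} {as : ι → U × U} {as' : κ → U × U} (h : ∀ i, ∃ j, as' j = as i) :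
    rows n as ≤ rows n as' := by
  refine Submodule.span_mono ?_
  rintro _ ⟨⟨s, i⟩, rfl⟩
  obtain ⟨j, hj⟩ := h i
  exact ⟨(s, j), by simp only [hj]⟩

theorem upd {X : Type} {k : ℕ} (as : Fin k → X) (i : Fin k) (a : X) (j : Fin k) :
    ∃ t : Option (Fin k), t.elim a as = update as i a j := by
  by_cases hj : j = i
  · exact ⟨none, by rw [hj, update_self]; rfl⟩
  · exact ⟨some j, by rw [update_of_ne hj]; rfl⟩

theorem flat_not_wins {u d k R : ℕ} (hn : Exp2 (LinearMap.snd F U U) n u d) (hu : R + R ≤ u)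
    (hq : 2 * (d + (q + 1) * (k + 1)) < q * (R + 1)) (hR : 1 ≤ R) (δ : Bil (U × U) (U × U))
    (hδ : Ok (LinearMap.snd F U U) n R ⊥ ⊥ δ 0) (l : ℕ) :
    ¬ Wins (k := k) (G := (flat n).G 0) (H := (flat n).G δ) l (fun _ => none) := by
  refine (flat n).not_wins (δ := δ) (fun _ as bs Y => Ok (LinearMap.snd F U U) n R (rows n as)
    (Submodule.span F (Set.range bs)) δ Y.1) ?_ ?_ _ _ 0 ?_ (by simp)
  · intro l as bs Y h i
    refine LinearMap.ext fun b => ?_
    have h1 := h (ev _ (as i) b) (Rk.mono (r := 1) ⟨fun _ => as i, fun _ => b, by simp⟩ hR) (by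
      intro η hη
      have e1 := hη.1 _ (Submodule.mem_sup_left (Submodule.subset_span ⟨(none, i), rfl⟩))
      have e2 := fun σ => hη.1 _ (Submodule.mem_sup_left
        (Submodule.subset_span ⟨(some σ, i), rfl⟩))
      simp only [Option.elim_none, Option.elim_some] at e1 e2
      simp [ev_apply, TT_apply, e1, e2])
    rw [ev_apply, LinearMap.sub_apply, LinearMap.sub_apply, TT_apply] at h1
    rw [Ch.dft_apply, sub_right_comm]
    exact h1
  · intro l as bs Y h i a b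
    obtain ⟨η, hη, h1⟩ := hn.ok_step hu hq (Rw' := rows n fun t : Option (Fin k) => t.elim a as)
      (Cw' := Submodule.span F (Set.range fun t : Option (Fin k) => t.elim b bs))
      ((finrank_range_le_card _).trans (by simp))
      ((finrank_range_le_card _).trans (by simp)) h
    refine ⟨⟨Y.1 + η, fun x hx => ?_⟩, fun z h2 h3 => h1 z h2 fun ζ hζ => h3 ζ
      (VS_anti _ (rows_mono n (upd as i a)) (Submodule.span_mono ?_) hζ), fun j σ => ?_,
      fun j x => ?_⟩
    · rw [LinearMap.add_apply, Y.2 x hx, hη.1 x (Submodule.mem_sup_right hx), add_zero]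
    · rintro _ ⟨j, rfl⟩
      exact upd bs i b j
    · show Y.1 _ + η _ = _
      rw [add_eq_left]
      exact hη.1 _ (Submodule.mem_sup_left (Submodule.subset_span ⟨(some σ, j), rfl⟩))
    · show Y.1 _ _ + η _ _ = _
      rw [hη.2 x _ (Submodule.subset_span ⟨j, rfl⟩), add_zero]
  · intro z h2 h3
    refine hδ z h2 fun ζ hζ => h3 ζ (VS_anti _ (Submodule.span_le.2 ?_) (Submodule.span_le.2 ?_) hζ)
    · rintro _ ⟨⟨_ | σ, j⟩, rfl⟩ <;> simp
    · rintro _ ⟨j, rfl⟩
      simp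

end

theorem exists_pair (k : ℕ) : ∃ (G H : Type) (_ : Group G) (_ : Group H) (_ : Finite G)
    (_ : Finite H), Nat.card G = Nat.card H ∧ Nat.card G ≤ 3 ^ (182279 * (k + 1)) ∧
      IsEmpty (G ≃* H) ∧ ∀ r, ¬ Wins (k := k) (G := G) (H := H) r (fun _ => none) := by
  obtain ⟨K, hK⟩ : ∃ K, K = k + 1 := ⟨_, rfl⟩
  obtain ⟨m, hm⟩ : ∃ m, m = 1301 * K := ⟨_, rfl⟩
  obtain ⟨d, hd⟩ : ∃ d, d + 1 = 80 * K := ⟨80 * K - 1, by omega⟩
  have : Nonempty (Fin m) := ⟨⟨0, by omega⟩⟩
  obtain ⟨n, hn⟩ := exists_exp2 (LinearMap.snd F (Fin m → F) (Fin m → F))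
    Prod.snd_surjective 64 (10 * K) d (by
      simp only [Nat.card_prod, Nat.card_fun, Nat.card_zmod, Nat.card_fin, ← pow_add, ← pow_mul]
      refine Nat.pow_lt_pow_right (by norm_num) ?_
      have h1 : 0 < K * K := Nat.mul_pos (by omega) (by omega)
      rw [hd, hm]
      nlinarith)
  have hE : Nat.card ((Fin m → F) × (Fin m → F)) = 3 ^ (2 * m) := by
    simp only [Nat.card_prod, Nat.card_fun, Nat.card_zmod, Nat.card_fin, ← pow_add]
    congr 1
    ring
  have hb := fun δ => ((flat n).card_bounds δ _ _ hE hE).2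
  rw [Fintype.card_fin] at hb
  have hfin := (flat n).finite_G
  obtain ⟨P, y, hP, h1, h2⟩ := hn.exists_P (R := 5 * K) (by omega) (by omega)
  have hY := card_YY n
  simp only [Module.finrank_prod, finrank_fintype_fun_eq_card, Fintype.card_fin] at h2 hY
  obtain ⟨δ, hδ, hne⟩ := (flat n).exists_twist' P (by
    rw [h1]
    refine lt_of_le_of_lt (Nat.mul_le_mul (Nat.pow_le_pow_left (hb 0) 7) hY) ?_
    rw [← pow_mul, ← pow_add]
    refine Nat.pow_lt_pow_right (by norm_num) ?_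
    have h3 : m * (10 * K + 1000) ≤ m * m := Nat.mul_le_mul_left _ (by omega)
    have h4 : 1301 ≤ m := by omega
    nlinarith)
  exact ⟨(flat n).G 0, (flat n).G δ, inferInstance, inferInstance, inferInstance, inferInstance,
    by rw [Grp.card_eq, Grp.card_eq], (hb 0).trans (Nat.pow_le_pow_right (by norm_num) (by omega)),
    hne, flat_not_wins n (R := 5 * K) hn (by omega) (by omega) (by omega) δ (hP δ hδ)⟩

end Pool.Agent.MP_45960e_lc.PR

end

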